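import Pool.Agent.L0h24.GF.Rolle

set_option autoImplicit false

/-! Iterated directional derivatives, and polynomials which are small at the origin. -/

open Set Topology Asymptotics Filter

namespace Pool.Agent.L0h24.GF

section
variable {X F : Type*} [NormedAddCommGroup X] [NormedSpace ℝ X] [NormedAddCommGroup F] [NormedSpace ℝ F]

/-- The iterated directional derivative. -/
noncomputable def dd (W : X) : ℕ → (X → F) → X → F
  | 0, G => G
  | j + 1, G => dd W j (fun P => fderiv ℝ G P W)

theorem dd_contDiffOn (W : X) : ∀ (j m : ℕ) (G : X → F) (u : Set X), IsOpen u →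
    ContDiffOn ℝ (m + j : ℕ) G u → ContDiffOn ℝ m (dd W j G) u := by
  intro j
  induction j with
  | zero => intro m G u _ h; exact h
  | succ j ih =>
    intro m G u hu h
    apply ih m _ u hu
    have h1 : ContDiffOn ℝ (m + j : ℕ) (fderiv ℝ G) u := by
      apply h.fderiv_of_isOpen hu
      norm_cast
    exact h1.clm_apply contDiffOn_const

/-- Derivatives along a line. -/
theorem dd_iteratedDeriv (W : X) : ∀ (j : ℕ) (G : X → F) (u : Set X), IsOpen u →
    ContDiffOn ℝ j G u → ∀ (P : X) (z : ℝ), P + z • W ∈ u →
    iteratedDeriv j (fun s : ℝ => G (P + s • W)) z = dd W j G (P + z • W) := by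
  intro j
  induction j with
  | zero => intro G u _ _ P z _; rw [iteratedDeriv_zero]; rfl
  | succ j ih =>
    intro G u hu hG P z hz
    rw [iteratedDeriv_succ']
    have h1 : ContDiffOn ℝ (j : ℕ) (fderiv ℝ G) u := by
      apply hG.fderiv_of_isOpen hu
      norm_cast
    have h2 := ih (fun P => fderiv ℝ G P W) u hu (h1.clm_apply contDiffOn_const) P z hz
    rw [show dd W (j + 1) G = dd W j (fun P => fderiv ℝ G P W) from rfl, ← h2]
    apply Filter.EventuallyEq.iteratedDeriv_eq
    have hc : Continuous fun s : ℝ => P + s • W := by fun_prop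
    filter_upwards [(hu.preimage hc).mem_nhds hz] with s hs
    have hd : DifferentiableAt ℝ G (P + s • W) :=
      (hG.contDiffAt (hu.mem_nhds hs)).differentiableAt (by exact_mod_cast Nat.succ_ne_zero j)
    have h3 : HasDerivAt (fun s : ℝ => P + s • W) W s := by
      have := ((hasDerivAt_id s).smul_const W).const_add P
      simpa using this
    exact (hd.hasFDerivAt.comp_hasDerivAt s h3).deriv

end

/-- A polynomial of degree at most `m` without constant term which is `o(s^m)` is zero. -/
theorem poly_o {F : Type*} [NormedAddCommGroup F] [NormedSpace ℝ F] {m : ℕ} (a : Fin m → F)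
    (h : (fun s : ℝ => ∑ j : Fin m, s ^ ((j : ℕ) + 1) • a j) =o[𝓝 0] fun s => s ^ m) :
    ∀ j, a j = 0 := by
  have key : ∀ n : ℕ, ∀ (hn : n < m), a ⟨n, hn⟩ = 0 := by
    intro n
    induction n using Nat.strong_induction_on with
    | _ n ih =>
      intro hn
      -- the quotient by `s ^ (n + 1)`
      have h1 : Tendsto (fun s : ℝ => (s ^ (n + 1))⁻¹ • ∑ j : Fin m, s ^ ((j : ℕ) + 1) • a j)
          (𝓝[≠] 0) (𝓝 0) := by
        have h2 : (fun s : ℝ => ∑ j : Fin m, s ^ ((j : ℕ) + 1) • a j) =o[𝓝[≠] 0]
            fun s : ℝ => s ^ (n + 1) := by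
          refine (h.mono nhdsWithin_le_nhds).trans_isBigO ?_
          apply IsBigO.mono _ nhdsWithin_le_nhds
          have : (fun s : ℝ => s ^ m) = fun s => s ^ (n + 1) * s ^ (m - (n + 1)) := by
            funext s
            rw [← pow_add]
            congr 1
            omega
          rw [this]
          have hb : (fun s : ℝ => s ^ (m - (n + 1))) =O[𝓝 0] fun _ => (1 : ℝ) := by
            have hc : Continuous fun s : ℝ => s ^ (m - (n + 1)) := by fun_prop
            exact (hc.tendsto 0).isBigO_one ℝ
          simpa using (isBigO_refl (fun s : ℝ => s ^ (n + 1)) (𝓝 0)).mul hb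
        have h3 : (fun s : ℝ => (s ^ (n + 1))⁻¹ • ∑ j : Fin m, s ^ ((j : ℕ) + 1) • a j) =o[𝓝[≠] 0]
            fun _ : ℝ => (1 : ℝ) := by
          have h4 := (isBigO_refl (fun s : ℝ => (s ^ (n + 1))⁻¹) (𝓝[≠] 0)).smul_isLittleO h2
          refine h4.congr' EventuallyEq.rfl ?_
          filter_upwards [self_mem_nhdsWithin] with s hs
          rw [smul_eq_mul, inv_mul_cancel₀ (pow_ne_zero _ hs)]
        exact (isLittleO_one_iff ℝ).1 h3
      have h5 : Tendsto (fun s : ℝ => (s ^ (n + 1))⁻¹ • ∑ j : Fin m, s ^ ((j : ℕ) + 1) • a j)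
          (𝓝[≠] 0) (𝓝 (a ⟨n, hn⟩)) := by
        have h6 : Continuous fun s : ℝ => ∑ j : Fin m,
            (if (j : ℕ) < n then (0 : ℝ) else s ^ ((j : ℕ) - n)) • a j := by
          apply continuous_finsetSum
          intro j _
          apply Continuous.smul _ continuous_const
          split_ifs
          · exact continuous_const
          · fun_prop
        have h7 : (fun s : ℝ => ∑ j : Fin m, (if (j : ℕ) < n then (0 : ℝ) else s ^ ((j : ℕ) - n)) • a j) 0 =
            a ⟨n, hn⟩ := by
          simp only
          rw [Finset.sum_eq_single ⟨n, hn⟩]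
          · rw [if_neg (lt_irrefl n), Nat.sub_self, pow_zero, one_smul]
          · intro j _ hj
            have hjn : (j : ℕ) ≠ n := fun h => hj (Fin.ext h)
            split_ifs with hlt
            · rw [zero_smul]
            · rw [zero_pow (by omega), zero_smul]
          · intro hh
            exact absurd (Finset.mem_univ _) hh
        rw [← h7]
        refine ((h6.tendsto 0).mono_left nhdsWithin_le_nhds).congr' ?_
        filter_upwards [self_mem_nhdsWithin] with s hs
        rw [Finset.smul_sum]
        refine Finset.sum_congr rfl fun j _ => ?_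
        split_ifs with hlt
        · rw [ih j hlt (hlt.trans hn), smul_zero, smul_zero, smul_zero]
        · rw [smul_smul]
          congr 1
          have hs0 : s ≠ 0 := hs
          rw [eq_inv_mul_iff_mul_eq₀ (pow_ne_zero _ hs0), ← pow_add]
          congr 1
          omega
      exact tendsto_nhds_unique h5 h1
  intro j
  exact key j j.2

end Pool.Agent.L0h24.GF
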