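import Pool.Agent.L0h24.GF.Dir
import Pool.Agent.H810R3.Tub.Bounds

set_option autoImplicit false

/-! The number of solutions of `b v + t v = x` near a point of finite type. -/

open Set Topology Asymptotics Filter

namespace Pool.Agent.L0h24.GF

open Pool.Agent.H810R3.Tub (Vec)

variable {d : ℕ}

/-- The polynomial arc with the coefficients `c`. -/
noncomputable def arc {m : ℕ} (v : Vec d) (c : Fin m → Vec d) (s : ℝ) : Vec d :=
  v + ∑ j : Fin m, s ^ ((j : ℕ) + 1) • c j

/-- The section map at the height `t` is constant to the order `m` along the arc. -/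
def Flat {m : ℕ} (b : Vec d → Vec d) (v : Vec d) (t : ℝ) (c : Fin m → Vec d) : Prop :=
  (fun s : ℝ => (b (arc v c s) + t • arc v c s) - (b v + t • v)) =o[𝓝 0] fun s : ℝ => s ^ m

/-- The arc is parametrised by its `k`-th coordinate. -/
def Normal {m : ℕ} (k : Fin d) (c : Fin m → Vec d) : Prop :=
  ∀ j : Fin m, c j k = if (j : ℕ) = 0 then 1 else 0

/-- The derivative of the section map. -/
noncomputable def dS (b : Vec d → Vec d) (v : Vec d) (t : ℝ) : Vec d →L[ℝ] Vec d :=
  fderiv ℝ b v + t • ContinuousLinearMap.id ℝ (Vec d)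

/-- The section map, as a function of the slope and of the height. -/
def sec (b : Vec d → Vec d) (p : Vec d × ℝ) : Vec d := b p.1 + p.2 • p.1

theorem sec_contDiffAt {b : Vec d → Vec d} {m : ℕ} {v : Vec d} (hb : ContDiffAt ℝ m b v) (t : ℝ) :
    ContDiffAt ℝ m (sec b) (v, t) := by
  unfold sec
  have h1 : ContDiffAt ℝ m (fun p : Vec d × ℝ => b p.1) (v, t) := by
    apply ContDiffAt.comp (v, t) (g := b) (f := Prod.fst)
    · exact hb
    · exact contDiffAt_fst
  exact h1.add (contDiffAt_snd.smul contDiffAt_fst)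

/-- The derivative of the section map, as a function of the slope and of the height. -/
noncomputable def dSec (b : Vec d → Vec d) (v : Vec d) (t : ℝ) : Vec d × ℝ →L[ℝ] Vec d :=
  (dS b v t).comp (ContinuousLinearMap.fst ℝ (Vec d) ℝ) +
    (ContinuousLinearMap.snd ℝ (Vec d) ℝ).smulRight v

theorem sec_hasFDerivAt {b : Vec d → Vec d} {v : Vec d} (hb : DifferentiableAt ℝ b v) (t : ℝ) :
    HasFDerivAt (sec b) (dSec b v t) (v, t) := by
  unfold sec
  have h1 : HasFDerivAt (fun p : Vec d × ℝ => b p.1)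
      ((fderiv ℝ b v).comp (ContinuousLinearMap.fst ℝ (Vec d) ℝ)) (v, t) :=
    HasFDerivAt.comp (v, t) (g := b) (f := Prod.fst) hb.hasFDerivAt hasFDerivAt_fst
  have h2 : HasFDerivAt (fun p : Vec d × ℝ => p.2 • p.1)
      (t • ContinuousLinearMap.fst ℝ (Vec d) ℝ + (ContinuousLinearMap.snd ℝ (Vec d) ℝ).smulRight v)
      (v, t) :=
    HasFDerivAt.smul (x := ((v, t) : Vec d × ℝ)) (c := Prod.snd) (f := Prod.fst) hasFDerivAt_snd hasFDerivAt_fst
  refine (h1.add h2).congr_fderiv ?_
  unfold dSec dS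
  refine ContinuousLinearMap.ext fun p => ?_
  show fderiv ℝ b v p.1 + (t • p.1 + p.2 • v) = (fderiv ℝ b v p.1 + t • p.1) + p.2 • v
  abel

/-- An injective derivative gives an equivalence. -/
theorem exists_equiv {X : Type*} [NormedAddCommGroup X] [NormedSpace ℝ X] [FiniteDimensional ℝ X]
    (D : X →L[ℝ] X) (h : ∀ x, D x = 0 → x = 0) : ∃ e : X ≃L[ℝ] X, (e : X →L[ℝ] X) = D := by
  have hinj : Function.Injective (D : X →ₗ[ℝ] X) := by
    rw [← LinearMap.ker_eq_bot, LinearMap.ker_eq_bot']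
    exact h
  refine ⟨(LinearEquiv.ofInjectiveEndo (D : X →ₗ[ℝ] X) hinj).toContinuousLinearEquiv, ?_⟩
  ext x
  rfl

/-- A neighbourhood of a pair contains a product. -/
theorem exists_box {S : Set (Vec d × ℝ)} {v : Vec d} {t : ℝ} (h : S ∈ 𝓝 (v, t)) :
    ∃ U ∈ 𝓝 v, ∃ ε : ℝ, 0 < ε ∧ ∀ w ∈ U, ∀ s : ℝ, |s - t| < ε → (w, s) ∈ S := by
  rw [nhds_prod_eq, mem_prod_iff] at h
  obtain ⟨U, hU, J, hJ, hs⟩ := h
  obtain ⟨ε, hε, hball⟩ := Metric.mem_nhds_iff.1 hJ
  refine ⟨U, hU, ε, hε, fun w hw s hs' => hs ⟨hw, hball ?_⟩⟩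
  rw [Metric.mem_ball, Real.dist_eq]
  exact hs'

/-- The case of an invertible derivative. -/
theorem mult_regular {b : Vec d → Vec d} {v₀ : Vec d} {t₀ : ℝ} (hb : ContDiffAt ℝ 1 b v₀)
    (hk : ∀ x, dS b v₀ t₀ x = 0 → x = 0) :
    ∃ U ∈ 𝓝 v₀, ∃ ε : ℝ, 0 < ε ∧ ∀ t : ℝ, |t - t₀| < ε → ∀ (x : Vec d) (V : Finset (Vec d)),
      (∀ v ∈ V, v ∈ U ∧ b v + t • v = x) → V.card ≤ 1 := by
  set Φ : Vec d × ℝ → Vec d × ℝ := fun p => (sec b p, p.2) with hΦ
  have hΦc : ContDiffAt ℝ (1 : ℕ) Φ (v₀, t₀) :=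
    (sec_contDiffAt (m := 1) (by exact_mod_cast hb) t₀).prodMk contDiffAt_snd
  have hd : DifferentiableAt ℝ b v₀ := hb.differentiableAt one_ne_zero
  obtain ⟨e, he⟩ := exists_equiv ((dSec b v₀ t₀).prod (ContinuousLinearMap.snd ℝ (Vec d) ℝ)) (by
    rintro ⟨x, τ⟩ hx
    have h1 : (dSec b v₀ t₀ (x, τ), τ) = (0, 0) := hx
    rw [Prod.mk.injEq] at h1
    obtain ⟨h1, h2⟩ := h1
    subst h2
    have h3 : dSec b v₀ t₀ (x, 0) = dS b v₀ t₀ x := by
      unfold dSec
      simp
    rw [h3] at h1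
    rw [hk x h1]
    rfl)
  have hΦd : HasFDerivAt Φ (e : Vec d × ℝ →L[ℝ] Vec d × ℝ) (v₀, t₀) := by
    rw [he]
    exact (sec_hasFDerivAt hd t₀).prodMk hasFDerivAt_snd
  set H := hΦc.toOpenPartialHomeomorph Φ hΦd (by norm_num) with hH
  have hmem : H.source ∈ 𝓝 (v₀, t₀) :=
    H.open_source.mem_nhds (hΦc.mem_toOpenPartialHomeomorph_source hΦd (by norm_num))
  obtain ⟨U, hU, ε, hε, hbox⟩ := exists_box hmem
  refine ⟨U, hU, ε, hε, ?_⟩
  intro t ht x V hV
  rw [Finset.card_le_one]
  intro v hv w hw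
  obtain ⟨hv1, hv2⟩ := hV v hv
  obtain ⟨hw1, hw2⟩ := hV w hw
  have h1 : H (v, t) = H (w, t) := by
    show ((b v + t • v, t) : Vec d × ℝ) = (b w + t • w, t)
    rw [hv2, hw2]
  have h2 := H.injOn (hbox v hv1 t ht) (hbox w hw1 t ht) h1
  exact (Prod.mk.injEq _ _ _ _ ▸ h2 : v = w ∧ t = t).1

/-- The case of a derivative with a one-dimensional kernel. -/
theorem mult_corank {m : ℕ} (hm : 1 ≤ m) {b : Vec d → Vec d} {v₀ : Vec d} {t₀ : ℝ}
    (hb : ContDiffAt ℝ m b v₀) {e : Vec d} (he : e ≠ 0)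
    (hk : ∀ x, dS b v₀ t₀ x = 0 → ∃ c : ℝ, x = c • e) (hke : dS b v₀ t₀ e = 0)
    (hflat : ∀ (k : Fin d) (c : Fin m → Vec d), Normal k c → ¬ Flat b v₀ t₀ c) :
    ∃ U ∈ 𝓝 v₀, ∃ ε : ℝ, 0 < ε ∧ ∀ t : ℝ, |t - t₀| < ε → ∀ (x : Vec d) (V : Finset (Vec d)),
      (∀ v ∈ V, v ∈ U ∧ b v + t • v = x) → V.card ≤ m := by
  classical
  have hm0 : (m : WithTop ℕ∞) ≠ 0 := by exact_mod_cast (show m ≠ 0 by omega)
  have hd : DifferentiableAt ℝ b v₀ := hb.differentiableAt hm0
  set A := dS b v₀ t₀ with hA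
  obtain ⟨k, hek⟩ : ∃ k, e k ≠ 0 := by
    by_contra hcon
    push Not at hcon
    exact he (by ext k; exact hcon k)
  set ℓ : Vec d →L[ℝ] ℝ := EuclideanSpace.proj k with hℓ
  have hℓa : ∀ x : Vec d, ℓ x = x k := fun x => rfl
  -- a functional which vanishes on the range
  have hlt : LinearMap.range (A : Vec d →ₗ[ℝ] Vec d) < ⊤ := by
    rw [lt_top_iff_ne_top]
    intro htop
    have h1 : Function.Surjective (A : Vec d →ₗ[ℝ] Vec d) := LinearMap.range_eq_top.1 htop
    have h2 : Function.Injective (A : Vec d →ₗ[ℝ] Vec d) := LinearMap.injective_iff_surjective.2 h1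
    apply he
    apply h2
    rw [map_zero]
    exact hke
  obtain ⟨lam, hlam0, hlamr⟩ := Submodule.exists_le_ker_of_lt_top _ hlt
  obtain ⟨u, hu⟩ : ∃ u, lam u ≠ 0 := by
    by_contra hcon
    push Not at hcon
    exact hlam0 (LinearMap.ext hcon)
  set w : Vec d := (lam u)⁻¹ • u with hw
  set L : Vec d →L[ℝ] ℝ := LinearMap.toContinuousLinearMap lam with hL
  have hLA : ∀ x, L (A x) = 0 := fun x => hlamr ⟨x, rfl⟩
  have hLw : L w = 1 := by
    show lam w = 1
    rw [hw, map_smul, smul_eq_mul, inv_mul_cancel₀ hu]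
  clear_value w
  -- the change of coordinates
  set Φ : Vec d × ℝ → Vec d × ℝ := fun p => (sec b p - L (sec b p) • w + ℓ p.1 • w, p.2) with hΦ
  have hsec := sec_contDiffAt hb t₀
  have hΦc : ContDiffAt ℝ m Φ (v₀, t₀) := by
    apply ContDiffAt.prodMk _ contDiffAt_snd
    apply ContDiffAt.add
    · apply hsec.sub
      exact (L.contDiff.contDiffAt.comp (v₀, t₀) hsec).smul contDiffAt_const
    · exact (ℓ.contDiff.contDiffAt.comp (v₀, t₀) contDiffAt_fst).smul contDiffAt_const
  set DF := dSec b v₀ t₀ with hDF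
  set D : Vec d × ℝ →L[ℝ] Vec d × ℝ :=
    (DF - (L.comp DF).smulRight w + (ℓ.comp (ContinuousLinearMap.fst ℝ (Vec d) ℝ)).smulRight w).prod
      (ContinuousLinearMap.snd ℝ (Vec d) ℝ) with hD
  have hΦd' : HasFDerivAt Φ D (v₀, t₀) := by
    have hs := sec_hasFDerivAt hd t₀
    apply HasFDerivAt.prodMk _ hasFDerivAt_snd
    apply HasFDerivAt.add
    · apply hs.sub
      exact (L.hasFDerivAt.comp (v₀, t₀) hs).smul_const w
    · exact (ℓ.hasFDerivAt.comp (v₀, t₀) hasFDerivAt_fst).smul_const w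
  obtain ⟨E, hE⟩ := exists_equiv D (by
    rintro ⟨x, τ⟩ hx
    have h1 : (DF (x, τ) - L (DF (x, τ)) • w + ℓ x • w, τ) = ((0 : Vec d), (0 : ℝ)) := hx
    rw [Prod.mk.injEq] at h1
    obtain ⟨h1, h2⟩ := h1
    subst h2
    have h3 : DF (x, 0) = A x := by
      rw [hDF, hA]
      unfold dSec
      simp
    rw [h3, hLA, zero_smul, sub_zero] at h1
    have h4 : ℓ x = 0 := by
      have := congrArg L h1
      rw [map_add, hLA, map_smul, hLw, map_zero, zero_add, smul_eq_mul, mul_one] at this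
      exact this
    rw [h4, zero_smul, add_zero] at h1
    obtain ⟨c, hc⟩ := hk x h1
    have h5 : c * e k = 0 := by
      have : ℓ x = c * e k := by
        rw [hc, hℓa]
        rfl
      rw [← this]; exact h4
    rcases mul_eq_zero.1 h5 with h6 | h6
    · rw [hc, h6, zero_smul]
      rfl
    · exact absurd h6 hek)
  have hΦd : HasFDerivAt Φ (E : Vec d × ℝ →L[ℝ] Vec d × ℝ) (v₀, t₀) := by
    rw [hE]
    exact hΦd'
  set H := hΦc.toOpenPartialHomeomorph Φ hΦd hm0 with hH
  have hHΦ : ∀ p, H p = Φ p := fun p => rfl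
  have hsrc : (v₀, t₀) ∈ H.source := hΦc.mem_toOpenPartialHomeomorph_source hΦd hm0
  set P₀ : Vec d × ℝ := Φ (v₀, t₀) with hP₀
  have htgt : P₀ ∈ H.target := hΦc.image_mem_toOpenPartialHomeomorph_target hΦd hm0
  have hsymm0 : H.symm P₀ = (v₀, t₀) := H.left_inv hsrc
  have hsymm : ContDiffAt ℝ m H.symm P₀ := by
    apply H.contDiffAt_symm htgt (f₀' := E)
    · rw [hsymm0]; exact hΦd
    · rw [hsymm0]; exact hΦc
  -- the remaining coordinate
  set G : Vec d × ℝ → ℝ := fun p => L (sec b (H.symm p)) with hG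
  have hGc : ContDiffAt ℝ m G P₀ := by
    have h1 : ContDiffAt ℝ m (fun p => sec b (H.symm p)) P₀ := by
      apply ContDiffAt.comp P₀ (g := sec b) (f := H.symm)
      · rw [hsymm0]; exact hsec
      · exact hsymm
    exact L.contDiff.contDiffAt.comp P₀ h1
  obtain ⟨u₀, hu₀, hGu₀⟩ := hGc.contDiffOn (m := m) le_rfl (by simp)
  obtain ⟨u₁, hu₁s, hu₁o, hu₁m⟩ := mem_nhds_iff.1 hu₀
  have hGu : ContDiffOn ℝ m G u₁ := hGu₀.mono hu₁s
  set W : Vec d × ℝ := (w, 0) with hW
  by_cases hcase : ∃ j : ℕ, 1 ≤ j ∧ j ≤ m ∧ dd W j G P₀ ≠ 0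
  · -- finite order: Rolle
    obtain ⟨j, hj1, hjm, hj⟩ := hcase
    have hGj : ContDiffOn ℝ j G u₁ := hGu.of_le (by exact_mod_cast hjm)
    have hcont : ContinuousOn (dd W j G) u₁ := by
      have h := dd_contDiffOn W j 0 G u₁ hu₁o (by rw [zero_add]; exact hGj)
      exact h.continuousOn
    have hopen : IsOpen (u₁ ∩ (dd W j G) ⁻¹' {0}ᶜ) := hcont.isOpen_inter_preimage hu₁o isOpen_compl_singleton
    obtain ⟨r, hr, hball⟩ := Metric.isOpen_iff.1 hopen P₀ ⟨hu₁m, hj⟩
    have hS : {p : Vec d × ℝ | p ∈ H.source ∧ Φ p ∈ Metric.ball P₀ r} ∈ 𝓝 (v₀, t₀) := by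
      have h1 : H.source ∈ 𝓝 (v₀, t₀) := H.open_source.mem_nhds hsrc
      have h2 : Φ ⁻¹' (Metric.ball P₀ r) ∈ 𝓝 (v₀, t₀) :=
        hΦd'.continuousAt.preimage_mem_nhds (Metric.ball_mem_nhds _ hr)
      exact Filter.inter_mem h1 h2
    obtain ⟨U, hU, ε, hε, hbox⟩ := exists_box hS
    refine ⟨U, hU, ε, hε, ?_⟩
    intro t ht x V hV
    set P : Vec d × ℝ := (x - L x • w, t) with hP
    have hVΦ : ∀ v ∈ V, Φ (v, t) = P + (v k) • W := by
      intro v hv
      obtain ⟨_, hv2⟩ := hV v hv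
      have e1 : sec b (v, t) = x := hv2
      show (sec b (v, t) - L (sec b (v, t)) • w + ℓ v • w, t) = _
      rw [e1, hP, hW]
      ext1
      · rfl
      · show t = t + v k * 0
        rw [mul_zero, add_zero]
    have hinj : Set.InjOn (fun v : Vec d => v k) V := by
      intro v hv v' hv' hvv
      have h1 : H (v, t) = H (v', t) := by
        rw [hHΦ, hHΦ, hVΦ v hv, hVΦ v' hv']
        have : v k = v' k := hvv
        rw [this]
      have h2 := H.injOn (hbox v (hV v hv).1 t ht).1 (hbox v' (hV v' hv').1 t ht).1 h1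
      exact (Prod.mk.injEq _ _ _ _ ▸ h2 : v = v' ∧ t = t).1
    rw [← Finset.card_image_of_injOn hinj]
    refine le_trans ?_ hjm
    have hline : Continuous fun z : ℝ => P + z • W := by fun_prop
    set I : Set ℝ := (fun z : ℝ => P + z • W) ⁻¹' (Metric.ball P₀ r) with hI
    have hIo : IsOpen I := Metric.isOpen_ball.preimage hline
    have hIc : I.OrdConnected := by
      have : Convex ℝ I := by
        have h1 : Convex ℝ (Metric.ball P₀ r) := convex_ball _ _
        intro z hz z' hz' α β hα hβ hαβ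
        have := h1 hz hz' hα hβ hαβ
        show P + (α • z + β • z') • W ∈ Metric.ball P₀ r
        convert this using 1
        have e1 : P = (α + β) • P := by rw [hαβ, one_smul]
        simp only [smul_add, smul_eq_mul, add_smul, mul_smul]
        nth_rewrite 1 [e1]
        rw [add_smul]
        abel
      exact this.ordConnected
    have hIu : ∀ z ∈ I, P + z • W ∈ u₁ := fun z hz => (hball hz).1
    obtain ⟨j', rfl⟩ : ∃ j', j = j' + 1 := ⟨j - 1, by omega⟩
    apply rolle_card (j' + 1) (fun z => G (P + z • W) - L x) I hIo hIc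
    · apply ContDiffOn.sub _ contDiffOn_const
      apply hGj.comp _ hIu
      exact (contDiff_const.add (contDiff_id.smul contDiff_const)).contDiffOn
    · intro z hz
      have h1 : iteratedDeriv (j' + 1) (fun z => G (P + z • W) - L x) z =
          iteratedDeriv (j' + 1) (fun z => G (P + z • W)) z := by
        rw [iteratedDeriv_succ', iteratedDeriv_succ']
        congr 1
        funext y
        exact deriv_sub_const _
      rw [h1, dd_iteratedDeriv W (j' + 1) G u₁ hu₁o hGj P z (hIu z hz)]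
      exact (hball hz).2
    · intro z hz
      obtain ⟨v, hv, rfl⟩ := Finset.mem_image.1 hz
      obtain ⟨hv1, hv2⟩ := hV v hv
      have hb1 := hbox v hv1 t ht
      constructor
      · show P + v k • W ∈ Metric.ball P₀ r
        rw [← hVΦ v hv]
        exact hb1.2
      · show G (P + v k • W) - L x = 0
        rw [← hVΦ v hv]
        have h1 : H.symm (Φ (v, t)) = (v, t) := H.left_inv hb1.1
        have h2 : G (Φ (v, t)) = L x := by
          show L (sec b (H.symm (Φ (v, t)))) = L x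
          rw [h1]
          have : sec b (v, t) = x := hv2
          rw [this]
        rw [h2, sub_self]
  · -- all derivatives vanish: a flat arc
    exfalso
    push Not at hcase
    have hlinec : ContDiff ℝ m (fun s : ℝ => P₀ + s • W) :=
      contDiff_const.add (contDiff_id.smul contDiff_const)
    have hline0 : P₀ + (0 : ℝ) • W = P₀ := by simp
    set φ : ℝ → ℝ := fun s => G (P₀ + s • W) with hφ
    have hφc : ContDiffAt ℝ m φ 0 := by
      apply ContDiffAt.comp (0 : ℝ) (g := G) (f := fun s : ℝ => P₀ + s • W)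
      · rw [hline0]; exact hGc
      · exact hlinec.contDiffAt
    have hφo : (fun s => φ s - φ 0) =o[𝓝 0] fun s : ℝ => s ^ m := by
      have h1 := taylor_o hφc
      refine h1.congr' (Eventually.of_forall fun s => ?_) EventuallyEq.rfl
      simp only
      congr 1
      rw [Finset.sum_range_succ' , Finset.sum_eq_zero, zero_add]
      · simp
      · intro i hi
        have hi' : i + 1 ≤ m := by
          have := Finset.mem_range.1 hi
          omega
        have h2 := dd_iteratedDeriv W (i + 1) G u₁ hu₁o (hGu.of_le (by exact_mod_cast hi')) P₀ 0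
          (by rw [zero_smul, add_zero]; exact hu₁m)
        rw [zero_smul, add_zero, hcase (i + 1) (by omega) hi'] at h2
        rw [hφ, h2, smul_zero]
    set Γ : ℝ → Vec d := fun s => (H.symm (P₀ + s • W)).1 with hΓ
    have hΓc : ContDiffAt ℝ m Γ 0 := by
      apply contDiffAt_fst.comp (0 : ℝ)
      apply ContDiffAt.comp (0 : ℝ) (g := H.symm) (f := fun s : ℝ => P₀ + s • W)
      · rw [hline0]; exact hsymm
      · exact hlinec.contDiffAt
    have hΓ0 : Γ 0 = v₀ := by
      show (H.symm (P₀ + (0 : ℝ) • W)).1 = v₀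
      rw [zero_smul, add_zero, hsymm0]
    -- the arc in the coordinates
    have hev : ∀ᶠ s : ℝ in 𝓝 0, P₀ + s • W ∈ H.target := by
      have hc : ContinuousAt (fun s : ℝ => P₀ + s • W) 0 := by fun_prop
      apply hc.preimage_mem_nhds
      show H.target ∈ 𝓝 (P₀ + (0 : ℝ) • W)
      rw [hline0]
      exact H.open_target.mem_nhds htgt
    have hP1 : P₀.1 = sec b (v₀, t₀) - L (sec b (v₀, t₀)) • w + ℓ v₀ • w := rfl
    have hP2 : P₀.2 = t₀ := rfl
    have hLP : L P₀.1 = v₀ k := by
      rw [hP1, map_add, map_sub, map_smul, map_smul, hLw, smul_eq_mul, smul_eq_mul, mul_one, mul_one,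
        sub_self, zero_add]
      exact hℓa v₀
    have hpt : ∀ᶠ s : ℝ in 𝓝 0, Γ s k = v₀ k + s ∧
        sec b (Γ s, t₀) - sec b (v₀, t₀) = (φ s - φ 0) • w := by
      filter_upwards [hev] with s hs
      have h1 : Φ (H.symm (P₀ + s • W)) = P₀ + s • W := H.right_inv hs
      have h2 : (H.symm (P₀ + s • W)).2 = t₀ := by
        have := congrArg Prod.snd h1
        have e2 : (P₀ + s • W).2 = t₀ := by
          show P₀.2 + s * 0 = t₀
          rw [mul_zero, add_zero, hP2]
        rw [e2] at this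
        exact this
      have h3 : H.symm (P₀ + s • W) = (Γ s, t₀) := Prod.ext rfl h2
      rw [h3] at h1
      have h4 : sec b (Γ s, t₀) - L (sec b (Γ s, t₀)) • w + ℓ (Γ s) • w = P₀.1 + s • w :=
        congrArg Prod.fst h1
      have h5 : Γ s k = v₀ k + s := by
        have := congrArg L h4
        rw [map_add, map_sub, map_smul, map_smul, map_add, map_smul, hLw, hLP, smul_eq_mul,
          smul_eq_mul, smul_eq_mul, mul_one, mul_one, mul_one, sub_self, zero_add] at this
        exact this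
      have h6 : φ s = L (sec b (Γ s, t₀)) := by
        show L (sec b (H.symm (P₀ + s • W))) = _
        rw [h3]
      have h7 : φ 0 = L (sec b (v₀, t₀)) := by
        show L (sec b (H.symm (P₀ + (0 : ℝ) • W))) = _
        rw [zero_smul, add_zero, hsymm0]
      refine ⟨h5, ?_⟩
      have h8 : sec b (Γ s, t₀) = P₀.1 + s • w + φ s • w - (v₀ k + s) • w := by
        rw [← h4, h6, hℓa, h5]
        abel
      rw [h8, hP1, h7, hℓa]
      rw [sub_smul, add_smul, h6]
      abel
    -- the Taylor polynomial of the arc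
    set c : Fin m → Vec d := fun j => (((j : ℕ) + 1).factorial : ℝ)⁻¹ • iteratedDeriv ((j : ℕ) + 1) Γ 0
      with hc
    have harc : (fun s => Γ s - arc v₀ c s) =o[𝓝 0] fun s : ℝ => s ^ m := by
      have h1 := taylor_o hΓc
      refine h1.congr' (Eventually.of_forall fun s => ?_) EventuallyEq.rfl
      simp only
      congr 1
      rw [Finset.sum_range_succ', Finset.sum_range]
      unfold arc
      rw [add_comm]
      congr 1
      · simp [hΓ0]
      · refine Finset.sum_congr rfl fun j _ => ?_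
        rw [hc, smul_smul, mul_comm]
    have hnormal : Normal k c := by
      have h1 : (fun s : ℝ => ∑ j : Fin m, s ^ ((j : ℕ) + 1) • (c j k - if (j : ℕ) = 0 then (1 : ℝ) else 0))
          =o[𝓝 0] fun s : ℝ => s ^ m := by
        have h2 : (fun s => ℓ (arc v₀ c s - Γ s)) =o[𝓝 0] fun s : ℝ => s ^ m := by
          have h3 : (fun s => arc v₀ c s - Γ s) =o[𝓝 0] fun s : ℝ => s ^ m := by
            have := harc.neg_left
            refine this.congr' (Eventually.of_forall fun s => ?_) EventuallyEq.rfl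
            simp
          exact (ℓ.isBigO_comp _ _).trans_isLittleO h3
        refine h2.congr' ?_ EventuallyEq.rfl
        filter_upwards [hpt] with s hs
        rw [map_sub, hℓa, hℓa, hs.1]
        have h4 : arc v₀ c s k = v₀ k + ∑ j : Fin m, s ^ ((j : ℕ) + 1) * c j k := by
          show ℓ (v₀ + ∑ j : Fin m, s ^ ((j : ℕ) + 1) • c j) = _
          rw [map_add, map_sum]
          rfl
        rw [h4]
        simp only [smul_eq_mul, mul_sub, Finset.sum_sub_distrib]
        have h5 : ∑ j : Fin m, s ^ ((j : ℕ) + 1) * (if (j : ℕ) = 0 then (1 : ℝ) else 0) = s := by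
          rw [Finset.sum_eq_single ⟨0, by omega⟩]
          · simp
          · intro j _ hj
            rw [if_neg (fun h0 => hj (Fin.ext h0)), mul_zero]
          · intro hh
            exact absurd (Finset.mem_univ _) hh
        rw [h5]
        ring
      intro j
      have := poly_o _ h1 j
      linarith
    apply hflat k c hnormal
    -- the arc is flat
    unfold Flat
    have h0 : sec b (v₀, t₀) = b v₀ + t₀ • v₀ := rfl
    have hΓt : Tendsto Γ (𝓝 0) (𝓝 v₀) := by
      have := hΓc.continuousAt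
      rw [ContinuousAt, hΓ0] at this
      exact this
    have harct : Tendsto (arc v₀ c) (𝓝 0) (𝓝 v₀) := by
      have hcc : Continuous (arc v₀ c) := by
        unfold arc
        fun_prop
      have h1 : arc v₀ c 0 = v₀ := by
        unfold arc
        simp
      have := hcc.tendsto 0
      rwa [h1] at this
    have hstrict : HasStrictFDerivAt (fun v => b v + t₀ • v) (dS b v₀ t₀) v₀ := by
      have h1 : HasStrictFDerivAt b (fderiv ℝ b v₀) v₀ := hb.hasStrictFDerivAt hm0
      exact h1.add ((hasStrictFDerivAt_id v₀).const_smul t₀)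
    have hO : (fun s => (b (arc v₀ c s) + t₀ • arc v₀ c s) - (b (Γ s) + t₀ • Γ s)) =O[𝓝 0]
        fun s => arc v₀ c s - Γ s :=
      hstrict.isBigO_sub.comp_tendsto (harct.prodMk_nhds hΓt)
    have h3 : (fun s => arc v₀ c s - Γ s) =o[𝓝 0] fun s : ℝ => s ^ m := by
      have := harc.neg_left
      refine this.congr' (Eventually.of_forall fun s => ?_) EventuallyEq.rfl
      simp
    have h4 : (fun s => (φ s - φ 0) • w) =o[𝓝 0] fun s : ℝ => s ^ m := by
      have h5 := hφo.smul_isBigO (isBigO_refl (fun _ : ℝ => w) (𝓝 0))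
      refine h5.trans_isBigO ?_
      have : (fun s : ℝ => s ^ m • w) =O[𝓝 0] fun s : ℝ => s ^ m • (1 : ℝ) :=
        (isBigO_refl (fun s : ℝ => s ^ m) (𝓝 0)).smul (isBigO_const_const w one_ne_zero _)
      simpa using this
    refine ((hO.trans_isLittleO h3).add h4).congr' ?_ EventuallyEq.rfl
    filter_upwards [hpt] with s hs
    rw [← hs.2, h0]
    show _ + ((b (Γ s) + t₀ • Γ s) - _) = _
    abel

end Pool.Agent.L0h24.GF
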