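import Pool.Agent.L0h24.GF.Null
import Pool.Agent.L0h24.GF.Local

set_option autoImplicit false

/-! Almost every polynomial perturbation of a family of lines is of finite type. -/

open MeasureTheory Set Topology Asymptotics Filter
open scoped NNReal ENNReal

namespace Pool.Agent.L0h24.GF

open Pool.Agent.H810R3.Tub (Vec)

variable {d m : ℕ}

/-- The space of the parameters. -/
abbrev Par (d m : ℕ) : Type := Fin d → Fin m → Vec d

/-- The perturbed family. -/
noncomputable def pert (b : Vec d → Vec d) (p : Par d m) (u : Vec d) : Vec d :=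
  b u + ∑ k : Fin d, ∑ j : Fin m, (u k) ^ ((j : ℕ) + 1) • p k j

theorem coord_contDiff {Y : Type*} [NormedAddCommGroup Y] [NormedSpace ℝ Y] {n : WithTop ℕ∞}
    {f : Y → Vec d} (hf : ContDiff ℝ n f) (k : Fin d) : ContDiff ℝ n (fun y => f y k) :=
  (EuclideanSpace.proj (𝕜 := ℝ) k).contDiff.comp hf

theorem pert_contDiff {Y : Type*} [NormedAddCommGroup Y] [NormedSpace ℝ Y] {n : WithTop ℕ∞}
    {b : Vec d → Vec d} (hb : ContDiff ℝ n b) {f : Y → Par d m} {g : Y → Vec d}
    (hf : ContDiff ℝ n f) (hg : ContDiff ℝ n g) : ContDiff ℝ n (fun y => pert b (f y) (g y)) := by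
  unfold pert
  apply (hb.comp hg).add
  apply ContDiff.sum
  intro k _
  apply ContDiff.sum
  intro j _
  have h1 : ContDiff ℝ n (fun y => f y k) := (contDiff_pi.1 hf) k
  exact ((coord_contDiff hg k).pow _).smul ((contDiff_pi.1 h1) j)

theorem pert_contDiff' {n : WithTop ℕ∞} {b : Vec d → Vec d} (hb : ContDiff ℝ n b) (p : Par d m) :
    ContDiff ℝ n (pert b p) :=
  pert_contDiff hb contDiff_const contDiff_id

/-- The derivative of the perturbed family. -/
theorem dS_pert {b : Vec d → Vec d} {v : Vec d} (hb : DifferentiableAt ℝ b v) (p : Par d m) (t : ℝ)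
    (x : Vec d) : dS (pert b p) v t x =
      fderiv ℝ b v x + ∑ k : Fin d, ∑ j : Fin m, ((((j : ℕ) : ℝ) + 1) * (v k) ^ (j : ℕ) * x k) • p k j
        + t • x := by
  have h1 : ∀ k : Fin d, ∀ j : Fin m, HasFDerivAt (fun u : Vec d => (u k) ^ ((j : ℕ) + 1) • p k j)
      ((((((j : ℕ) : ℝ) + 1) * (v k) ^ (j : ℕ)) • (EuclideanSpace.proj k : Vec d →L[ℝ] ℝ)).smulRight (p k j)) v := by
    intro k j
    apply HasFDerivAt.smul_const
    have h2 : HasFDerivAt (fun u : Vec d => u k) (EuclideanSpace.proj k : Vec d →L[ℝ] ℝ) v :=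
      (EuclideanSpace.proj (𝕜 := ℝ) k).hasFDerivAt
    have h3 := h2.pow ((j : ℕ) + 1)
    refine h3.congr_fderiv ?_
    simp
  have h4 : HasFDerivAt (pert b p) (fderiv ℝ b v + ∑ k : Fin d, ∑ j : Fin m,
      ((((((j : ℕ) : ℝ) + 1) * (v k) ^ (j : ℕ)) • (EuclideanSpace.proj k : Vec d →L[ℝ] ℝ)).smulRight (p k j))) v := by
    unfold pert
    apply hb.hasFDerivAt.add
    apply HasFDerivAt.fun_sum
    intro k _
    apply HasFDerivAt.fun_sum
    intro j _
    exact h1 k j
  unfold dS
  rw [h4.fderiv]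
  simp only [add_apply, sum_apply, ContinuousLinearMap.smulRight_apply, smul_apply, smul_eq_mul]
  rfl

/-- Splitting off the parameters of the `k`-th coordinate. -/
theorem pert_split (b : Vec d → Vec d) {p p₀ : Par d m} {k : Fin d} (h0 : p₀ k = 0)
    (h1 : ∀ l, l ≠ k → p₀ l = p l) (u : Vec d) :
    pert b p u = pert b p₀ u + ∑ j : Fin m, (u k) ^ ((j : ℕ) + 1) • p k j := by
  unfold pert
  rw [add_assoc]
  congr 1
  rw [← Finset.add_sum_erase _ _ (Finset.mem_univ k),
    ← Finset.add_sum_erase (s := Finset.univ) (f := fun l => ∑ j : Fin m, (u l) ^ ((j : ℕ) + 1) •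
      p₀ l j) (a := k) (Finset.mem_univ k)]
  have h2 : ∑ j : Fin m, (u k) ^ ((j : ℕ) + 1) • p₀ k j = 0 := by
    apply Finset.sum_eq_zero
    intro j _
    rw [h0]
    simp
  rw [h2, zero_add, add_comm]
  congr 1
  refine Finset.sum_congr rfl fun l hl => ?_
  rw [h1 l (Finset.ne_of_mem_erase hl)]

/-- The coefficients of a normalised arc, from the free ones. -/
noncomputable def recc (k : Fin d) (c : Fin m → (({k}ᶜ : Finset (Fin d)) → ℝ)) (j : Fin m) : Vec d :=
  (if (j : ℕ) = 0 then (1 : ℝ) else 0) • EuclideanSpace.single k (1 : ℝ) +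
    ∑ i : ({k}ᶜ : Finset (Fin d)), c j i • EuclideanSpace.single (i : Fin d) (1 : ℝ)

theorem recc_apply (k : Fin d) (c : Fin m → (({k}ᶜ : Finset (Fin d)) → ℝ)) (j : Fin m) (l : Fin d) :
    recc k c j l = if h : l = k then (if (j : ℕ) = 0 then (1 : ℝ) else 0) else c j ⟨l, by simpa using h⟩ := by
  unfold recc
  have h0 : ((if (j : ℕ) = 0 then (1 : ℝ) else 0) • EuclideanSpace.single k (1 : ℝ) +
    ∑ i : ({k}ᶜ : Finset (Fin d)), c j i • EuclideanSpace.single (i : Fin d) (1 : ℝ)) l =
    (if (j : ℕ) = 0 then (1 : ℝ) else 0) * (EuclideanSpace.single k (1 : ℝ) : Vec d) l +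
    ∑ i : ({k}ᶜ : Finset (Fin d)), c j i * (EuclideanSpace.single (i : Fin d) (1 : ℝ) : Vec d) l := by
    have h1 : ∀ y : Vec d, y l = (EuclideanSpace.proj l : Vec d →L[ℝ] ℝ) y := fun y => rfl
    rw [h1, map_add, map_smul, map_sum]
    rfl
  rw [h0]
  by_cases h : l = k
  · subst h
    rw [dif_pos rfl]
    have h1 : ∑ i : ({l}ᶜ : Finset (Fin d)), c j i * (EuclideanSpace.single (i : Fin d) (1 : ℝ) : Vec d) l = 0 := by
      apply Finset.sum_eq_zero
      intro i _
      have h2 : l ≠ (i : Fin d) := by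
        intro h3
        have := i.2
        rw [← h3] at this
        simp at this
      simp [h2]
    rw [h1, add_zero]
    simp
  · rw [dif_neg h, Finset.sum_eq_single ⟨l, by simpa using h⟩]
    · simp [h]
    · intro i _ hi
      have h2 : l ≠ (i : Fin d) := fun h3 => hi (Subtype.ext h3.symm)
      simp [h2]
    · intro hh
      exact absurd (Finset.mem_univ _) hh

theorem recc_surj {k : Fin d} {c : Fin m → Vec d} (hc : Normal k c) :
    recc k (fun j i => c j i) = c := by
  funext j
  ext l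
  rw [recc_apply]
  split_ifs with h1 h2
  · subst h1
    rw [hc j, if_pos h2]
  · subst h1
    rw [hc j, if_neg h2]
  · rfl

/-- The space of the normalised arcs with a height. -/
abbrev Arcs (d m : ℕ) (k : Fin d) : Type := (Vec d × ℝ) × (Fin m → (({k}ᶜ : Finset (Fin d)) → ℝ))

/-- The section map along an arc, as a function of all the variables. -/
noncomputable def FF (b : Vec d → Vec d) (k : Fin d) (z : (Arcs d m k × Par d m) × ℝ) : Vec d :=
  pert b z.1.2 (arc z.1.1.1.1 (recc k z.1.1.2) z.2) + z.1.1.1.2 • arc z.1.1.1.1 (recc k z.1.1.2) z.2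

theorem recc_contDiff {Y : Type*} [NormedAddCommGroup Y] [NormedSpace ℝ Y] {n : WithTop ℕ∞} {k : Fin d}
    {f : Y → (Fin m → (({k}ᶜ : Finset (Fin d)) → ℝ))} (hf : ContDiff ℝ n f) (j : Fin m) :
    ContDiff ℝ n (fun y => recc k (f y) j) := by
  unfold recc
  apply contDiff_const.add
  apply ContDiff.sum
  intro i _
  have h1 : ContDiff ℝ n (fun y => f y j) := (contDiff_pi.1 hf) j
  exact ((contDiff_pi.1 h1) i).smul contDiff_const

theorem arc_contDiff {Y : Type*} [NormedAddCommGroup Y] [NormedSpace ℝ Y] {n : WithTop ℕ∞}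
    {f : Y → Vec d} {c : Y → (Fin m → Vec d)} {s : Y → ℝ} (hf : ContDiff ℝ n f)
    (hc : ∀ j, ContDiff ℝ n (fun y => c y j)) (hs : ContDiff ℝ n s) :
    ContDiff ℝ n (fun y => arc (f y) (c y) (s y)) := by
  unfold arc
  apply hf.add
  apply ContDiff.sum
  intro j _
  exact (hs.pow _).smul (hc j)

theorem FF_contDiff {n : WithTop ℕ∞} {b : Vec d → Vec d} (hb : ContDiff ℝ n b) (k : Fin d) :
    ContDiff ℝ n (FF (m := m) b k) := by
  have h1 : ContDiff ℝ n (fun z : (Arcs d m k × Par d m) × ℝ => arc z.1.1.1.1 (recc k z.1.1.2) z.2) := by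
    apply arc_contDiff (f := fun z : (Arcs d m k × Par d m) × ℝ => z.1.1.1.1)
      (c := fun z : (Arcs d m k × Par d m) × ℝ => recc k z.1.1.2)
      (s := fun z : (Arcs d m k × Par d m) × ℝ => z.2)
    · exact contDiff_fst.comp (contDiff_fst.comp (contDiff_fst.comp contDiff_fst))
    · intro j
      exact recc_contDiff (contDiff_snd.comp (contDiff_fst.comp contDiff_fst)) j
    · exact contDiff_snd
  unfold FF
  apply ContDiff.add
  · exact pert_contDiff hb (contDiff_snd.comp contDiff_fst) h1
  · exact (contDiff_snd.comp (contDiff_fst.comp (contDiff_fst.comp contDiff_fst))).smul h1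

/-- The coefficients of the Taylor polynomial of the section map along an arc. -/
noncomputable def hh (b : Vec d → Vec d) (k : Fin d) (i : Fin m) (y : Arcs d m k × Par d m) : Vec d :=
  ((((i : ℕ) + 1).factorial : ℝ)⁻¹) •
    dd ((0, 1) : (Arcs d m k × Par d m) × ℝ) ((i : ℕ) + 1) (FF b k) (y, 0)

theorem hh_contDiff {b : Vec d → Vec d} (hb : ContDiff ℝ (m + 1 : ℕ) b) (k : Fin d) (i : Fin m) :
    ContDiff ℝ 1 (hh b k i) := by
  have h1 : ContDiff ℝ 1 (dd ((0, 1) : (Arcs d m k × Par d m) × ℝ) ((i : ℕ) + 1) (FF (m := m) b k)) := by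
    rw [← contDiffOn_univ]
    have h2 := dd_contDiffOn ((0, 1) : (Arcs d m k × Par d m) × ℝ) ((i : ℕ) + 1) 1 (FF (m := m) b k)
      univ isOpen_univ (by
        rw [contDiffOn_univ]
        apply (FF_contDiff hb k).of_le
        have := i.2
        exact_mod_cast (show 1 + ((i : ℕ) + 1) ≤ m + 1 by omega))
    exact_mod_cast h2
  have h3 : ContDiff ℝ 1 (fun y : Arcs d m k × Par d m =>
      dd ((0, 1) : (Arcs d m k × Par d m) × ℝ) ((i : ℕ) + 1) (FF (m := m) b k) (y, 0)) :=
    h1.comp (contDiff_id.prodMk contDiff_const)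
  exact ContDiff.smul (f := fun _ => ((((i : ℕ) + 1).factorial : ℝ)⁻¹)) contDiff_const h3

/-- The parameters of the `k`-th coordinate of a family with a flat arc. -/
noncomputable def sig (b : Vec d → Vec d) (k : Fin d) (y : Arcs d m k × Par d m) : Fin m → Vec d :=
  fun j => -∑ i : Fin m, ((-(y.1.1.1 k)) ^ ((i : ℕ) - (j : ℕ)) *
    (((i : ℕ) + 1).choose ((j : ℕ) + 1) : ℝ)) • hh b k i y

theorem sig_contDiff {b : Vec d → Vec d} (hb : ContDiff ℝ (m + 1 : ℕ) b) (k : Fin d) :
    ContDiff ℝ 1 (sig (m := m) b k) := by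
  unfold sig
  rw [contDiff_pi]
  intro j
  apply ContDiff.neg
  apply ContDiff.sum
  intro i _
  have h1 : ContDiff ℝ 1 (fun y : Arcs d m k × Par d m => y.1.1.1 k) :=
    coord_contDiff (contDiff_fst.comp (contDiff_fst.comp contDiff_fst)) k
  exact ((h1.neg.pow _).mul contDiff_const).smul (hh_contDiff hb k i)

theorem sig_spec (hm : 1 ≤ m) {b : Vec d → Vec d} (hb : ContDiff ℝ (m + 1 : ℕ) b) {k : Fin d}
    {p p₀ : Par d m} (h0 : p₀ k = 0) (h1 : ∀ l, l ≠ k → p₀ l = p l) {v : Vec d} {t : ℝ}
    {c : Fin m → Vec d} (hc : Normal k c) (hf : Flat (pert b p) v t c) :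
    p k = sig b k (((v, t), fun j i => c j i), p₀) := by
  set y : Arcs d m k × Par d m := (((v, t), fun j i => c j i), p₀) with hy
  set f : ℝ → Vec d := fun s => FF b k (y, s) with hfdef
  have hfs : ∀ s, f s = pert b p₀ (arc v c s) + t • arc v c s := by
    intro s
    show pert b p₀ (arc v (recc k fun j i => c j i) s) + t • arc v (recc k fun j i => c j i) s = _
    rw [recc_surj hc]
  have hfc : ContDiff ℝ m f := by
    have h2 : ContDiff ℝ (m + 1 : ℕ) f := (FF_contDiff hb k).comp (contDiff_const.prodMk contDiff_id)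
    exact h2.of_le (by exact_mod_cast Nat.le_succ m)
  have harc0 : arc v c 0 = v := by
    unfold arc
    simp
  have harck : ∀ s, arc v c s k = v k + s := by
    intro s
    have h2 : ∀ y : Vec d, y k = (EuclideanSpace.proj k : Vec d →L[ℝ] ℝ) y := fun y => rfl
    unfold arc
    rw [h2, map_add, map_sum, ← h2]
    congr 1
    rw [Finset.sum_eq_single ⟨0, by omega⟩]
    · rw [map_smul, ← h2, hc]
      simp
    · intro j _ hj
      rw [map_smul, ← h2, hc, if_neg (fun h => hj (Fin.ext h))]
      simp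
    · intro hh
      exact absurd (Finset.mem_univ _) hh
  funext j
  apply shift (fun i => hh b k i y) (p k) (v k)
  have h3 := taylor_o (hfc.contDiffAt (x := 0))
  refine (hf.sub h3).congr' (Eventually.of_forall fun s => ?_) EventuallyEq.rfl
  simp only
  rw [pert_split b h0 h1, pert_split b h0 h1, harck]
  have h4 : ∑ i ∈ Finset.range (m + 1), (((i.factorial : ℝ))⁻¹ * s ^ i) • iteratedDeriv i f 0 =
      f 0 + ∑ i : Fin m, s ^ ((i : ℕ) + 1) • hh b k i y := by
    rw [Finset.sum_range_succ', Finset.sum_range, add_comm]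
    congr 1
    · simp
    · refine Finset.sum_congr rfl fun i _ => ?_
      unfold hh
      rw [smul_smul, mul_comm]
      congr 1
      have h5 := dd_iteratedDeriv ((0, 1) : (Arcs d m k × Par d m) × ℝ) ((i : ℕ) + 1) (FF (m := m) b k)
        univ isOpen_univ (by
          rw [contDiffOn_univ]
          apply (FF_contDiff hb k).of_le
          have := i.2
          exact_mod_cast (show (i : ℕ) + 1 ≤ m + 1 by omega)) (y, 0) 0 (mem_univ _)
      rw [zero_smul, add_zero] at h5
      rw [← h5]
      congr 1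
      funext s
      show FF b k (y, s) = FF b k (y + s • (0 : Arcs d m k × Par d m), 0 + s • (1 : ℝ))
      rw [smul_zero, add_zero, zero_add, smul_eq_mul, mul_one]
  rw [h4, hfs, hfs, harc0]
  simp only [sub_smul, Finset.sum_sub_distrib]
  abel

theorem haar_par (d m : ℕ) : (volume : Measure (Par d m)).IsAddHaarMeasure :=
  Measure.pi.isAddHaarMeasure (fun _ : Fin d => (volume : Measure (Fin m → Vec d)))

/-- The families with a flat arc. -/
theorem flat_null (hm : d + 2 ≤ m) {b : Vec d → Vec d} (hb : ContDiff ℝ (m + 1 : ℕ) b) (k : Fin d) :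
    volume {p : Par d m | ∃ v t, ∃ c : Fin m → Vec d, Normal k c ∧ Flat (pert b p) v t c} = 0 := by
  have := haar_par d m
  have hd : 1 ≤ d := Nat.one_le_of_lt k.2
  have hdim : Module.finrank ℝ (Arcs d m k) < Module.finrank ℝ (Fin m → Vec d) := by
    have e1 : Module.finrank ℝ (Fin m → Vec d) = m * d := by
      simp [Module.finrank_pi_fintype]
    have e2 : Module.finrank ℝ (Fin m → (({k}ᶜ : Finset (Fin d)) → ℝ)) = m * (d - 1) := by
      rw [Module.finrank_pi_fintype]
      simp
    have e3 : Module.finrank ℝ (Arcs d m k) = (d + 1) + m * (d - 1) := by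
      rw [Module.finrank_prod, Module.finrank_prod, e2]
      simp
    rw [e1, e3]
    obtain ⟨e, rfl⟩ : ∃ e, d = e + 1 := ⟨d - 1, by omega⟩
    rw [Nat.add_sub_cancel, mul_add, mul_one]
    omega
  refine measure_mono_null ?_ (null_param volume (ContinuousLinearMap.proj (R := ℝ) (φ := fun _ : Fin d => Fin m → Vec d) k)
    (ContinuousLinearMap.single ℝ (fun _ : Fin d => Fin m → Vec d) k) ?_ (sig_contDiff hb k) hdim)
  · rintro p ⟨v, t, c, hc, hf⟩
    refine ⟨((v, t), fun j i => c j i), ?_⟩
    refine sig_spec (by omega) hb ?_ ?_ hc hf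
    · simp
    · intro l hl
      simp [hl]
  · intro q
    simp

/-- The section of the projection onto the first parameters of all the coordinates. -/
noncomputable def inc0 (d m : ℕ) (j₀ : Fin m) : (Fin d → Vec d) →L[ℝ] Par d m :=
  ContinuousLinearMap.pi fun k => (ContinuousLinearMap.single ℝ (fun _ : Fin m => Vec d) j₀).comp
    (ContinuousLinearMap.proj k)

theorem inc0_apply (j₀ : Fin m) (q : Fin d → Vec d) (k : Fin d) (j : Fin m) :
    inc0 d m j₀ q k j = if j = j₀ then q k else 0 := by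
  show (Pi.single j₀ (q k) : Fin m → Vec d) j = _
  rw [Pi.single_apply]

/-- The derivative of the section map is additive in the parameters. -/
theorem dS_add {b : Vec d → Vec d} {v : Vec d} (hb : DifferentiableAt ℝ b v) (p p' : Par d m) (t : ℝ)
    (x : Vec d) : dS (pert b (p + p')) v t x = dS (pert b p) v t x +
      ∑ k : Fin d, ∑ j : Fin m, ((((j : ℕ) : ℝ) + 1) * (v k) ^ (j : ℕ) * x k) • p' k j := by
  rw [dS_pert hb, dS_pert hb]
  simp only [Pi.add_apply, smul_add, Finset.sum_add_distrib]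
  abel

/-- The derivative of the section map as a function of all the variables. -/
theorem dS_contDiff {Y : Type*} [NormedAddCommGroup Y] [NormedSpace ℝ Y] {n : WithTop ℕ∞}
    {b : Vec d → Vec d} (hb : ContDiff ℝ (n + 1) b) {f : Y → Par d m} {g x : Y → Vec d} {t : Y → ℝ}
    (hf : ContDiff ℝ n f) (hg : ContDiff ℝ n g) (ht : ContDiff ℝ n t) (hx : ContDiff ℝ n x) :
    ContDiff ℝ n (fun y => dS (pert b (f y)) (g y) (t y) (x y)) := by
  have hd : Differentiable ℝ b := hb.differentiable (by simp)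
  have h0 : (fun y => dS (pert b (f y)) (g y) (t y) (x y)) = fun y =>
      fderiv ℝ b (g y) (x y) + ∑ k : Fin d, ∑ j : Fin m,
        ((((j : ℕ) : ℝ) + 1) * (g y k) ^ (j : ℕ) * x y k) • f y k j + t y • x y := by
    funext y
    exact dS_pert (hd _) _ _ _
  rw [h0]
  apply ContDiff.add
  · apply ContDiff.add
    · have h1 : ContDiff ℝ n (fderiv ℝ b) := hb.fderiv_right le_rfl
      exact (h1.comp hg).clm_apply hx
    · apply ContDiff.sum
      intro k _
      apply ContDiff.sum
      intro j _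
      have h2 : ContDiff ℝ n (fun y => f y k) := (contDiff_pi.1 hf) k
      exact ((contDiff_const.mul ((coord_contDiff hg k).pow _)).mul (coord_contDiff hx k)).smul
        ((contDiff_pi.1 h2) j)
  · exact ht.smul hx

/-- The families with a point where the derivative of a section map vanishes. -/
theorem zero_null (hd : 2 ≤ d) (hm : 1 ≤ m) {b : Vec d → Vec d} (hb : ContDiff ℝ 2 b) :
    volume {p : Par d m | ∃ v t, dS (pert b p) v t = 0} = 0 := by
  have := haar_par d m
  set j₀ : Fin m := ⟨0, hm⟩ with hj₀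
  set π : Par d m →L[ℝ] (Fin d → Vec d) := ContinuousLinearMap.pi fun k =>
    (ContinuousLinearMap.proj (R := ℝ) (φ := fun _ : Fin m => Vec d) j₀).comp
      (ContinuousLinearMap.proj k) with hπ
  have hπa : ∀ p k, π p k = p k j₀ := fun p k => rfl
  set σ : (Vec d × ℝ) × Par d m → (Fin d → Vec d) := fun y k =>
    -dS (pert b y.2) y.1.1 y.1.2 (EuclideanSpace.single k (1 : ℝ)) with hσ
  have hσc : ContDiff ℝ 1 σ := by
    rw [contDiff_pi]
    intro k
    apply ContDiff.neg
    apply dS_contDiff (n := 1) (by norm_num; exact hb) contDiff_snd (contDiff_fst.comp contDiff_fst)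
      (contDiff_snd.comp contDiff_fst) contDiff_const
  have hdim : Module.finrank ℝ (Vec d × ℝ) < Module.finrank ℝ (Fin d → Vec d) := by
    rw [Module.finrank_prod, Module.finrank_pi_fintype]
    simp
    nlinarith
  refine measure_mono_null ?_ (null_param volume π (inc0 d m j₀) ?_ hσc hdim)
  · rintro p ⟨v, t, h⟩
    refine ⟨(v, t), ?_⟩
    funext k
    show π p k = -dS (pert b (p - inc0 d m j₀ (π p))) v t (EuclideanSpace.single k (1 : ℝ))
    have h1 : dS (pert b ((p - inc0 d m j₀ (π p)) + inc0 d m j₀ (π p))) v t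
        (EuclideanSpace.single k (1 : ℝ)) = 0 := by
      rw [sub_add_cancel, h]
      rfl
    rw [dS_add ((hb.differentiable (by norm_num)) v)] at h1
    have h2 : ∑ l : Fin d, ∑ j : Fin m, ((((j : ℕ) : ℝ) + 1) * (v l) ^ (j : ℕ) *
        (EuclideanSpace.single k (1 : ℝ) : Vec d) l) • inc0 d m j₀ (π p) l j = π p k := by
      rw [Finset.sum_eq_single k, Finset.sum_eq_single j₀]
      · rw [inc0_apply, if_pos rfl]
        simp [hj₀]
      · intro j _ hj
        rw [inc0_apply, if_neg hj, smul_zero]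
      · intro hh
        exact absurd (Finset.mem_univ _) hh
      · intro l _ hl
        apply Finset.sum_eq_zero
        intro j _
        simp [hl]
      · intro hh
        exact absurd (Finset.mem_univ _) hh
    rw [h2] at h1
    exact eq_neg_of_add_eq_zero_right h1
  · intro q
    funext k
    rw [hπa, inc0_apply, if_pos rfl]

end Pool.Agent.L0h24.GF
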