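import Pool.Agent.L0h24.GF.Local
import Pool.Agent.L0h24.Gev.Core
import Pool.Agent.L0h24.SS.Main

set_option autoImplicit false

/-! The inequality for families of lines of finite type. -/

open MeasureTheory Set Topology Asymptotics Metric
open scoped ENNReal NNReal

namespace Pool.Agent.L0h24.GF

open Pool.Agent.H810R3.Tub

variable {d : ℕ}

/-- The family is of finite type `m` at the slope `v`: it is of class `C^m` there, all the real
eigenvalues of the derivative are of geometric multiplicity one, and no section map is constant to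
the order `m` along a normalised arc. -/
def Good (m : ℕ) (b : Vec d → Vec d) (v : Vec d) : Prop :=
  ContDiffAt ℝ m b v ∧
    (∀ t : ℝ, Module.finrank ℝ (LinearMap.ker (dS b v t : Vec d →ₗ[ℝ] Vec d)) ≤ 1) ∧
    ∀ (t : ℝ) (k : Fin d) (c : Fin m → Vec d), Normal k c → ¬ Flat b v t c

theorem mult_local {m : ℕ} (hm : 1 ≤ m) {b : Vec d → Vec d} {v₀ : Vec d} (h : Good m b v₀) (t₀ : ℝ) :
    ∃ U ∈ 𝓝 v₀, ∃ ε : ℝ, 0 < ε ∧ ∀ t : ℝ, |t - t₀| < ε → ∀ (x : Vec d) (V : Finset (Vec d)),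
      (∀ v ∈ V, v ∈ U ∧ b v + t • v = x) → V.card ≤ m := by
  obtain ⟨hb, hc, hf⟩ := h
  by_cases hk : ∀ x, dS b v₀ t₀ x = 0 → x = 0
  · obtain ⟨U, hU, ε, hε, h1⟩ := mult_regular (t₀ := t₀) (hb.of_le (by exact_mod_cast hm)) hk
    exact ⟨U, hU, ε, hε, fun t ht x V hV => (h1 t ht x V hV).trans hm⟩
  · push Not at hk
    obtain ⟨e, he1, he2⟩ := hk
    refine mult_corank hm hb he2 ?_ he1 (hf t₀)
    intro x hx
    have h1 := hc t₀
    rw [finrank_le_one_iff] at h1
    obtain ⟨u, hu⟩ := h1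
    obtain ⟨c1, hc1⟩ := hu ⟨e, he1⟩
    obtain ⟨c2, hc2⟩ := hu ⟨x, hx⟩
    have e1 : c1 • (u : Vec d) = e := congrArg Subtype.val hc1
    have e2 : c2 • (u : Vec d) = x := congrArg Subtype.val hc2
    have hc10 : c1 ≠ 0 := by
      rintro rfl
      rw [zero_smul] at e1
      exact he2 e1.symm
    exact ⟨c2 / c1, by rw [← e1, smul_smul, div_mul_cancel₀ _ hc10, e2]⟩

theorem encard_le_of {X : Type*} {S : Set X} {m : ℕ} (h : ∀ V : Finset X, (∀ v ∈ V, v ∈ S) → V.card ≤ m) :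
    S.encard ≤ m := by
  by_contra hcon
  rw [not_le] at hcon
  have h1 : ((m + 1 : ℕ) : ℕ∞) ≤ S.encard := by
    push_cast
    exact Order.add_one_le_of_lt hcon
  obtain ⟨T, hTS, hT⟩ := Set.exists_subset_encard_eq h1
  have hfin : T.Finite := Set.finite_of_encard_eq_coe hT
  have h2 := h hfin.toFinset (fun v hv => hTS (by simpa using hv))
  rw [hfin.encard_eq_coe_toFinset_card] at hT
  have h3 : hfin.toFinset.card = m + 1 := by exact_mod_cast hT
  omega

/-- Near a slope of finite type the section maps have few preimages at all heights. -/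
theorem few_local {m : ℕ} (hm : 1 ≤ m) {b : Vec d → Vec d} {v₀ : Vec d} (h : Good m b v₀) :
    ∃ U : Set (Vec d), IsOpen U ∧ v₀ ∈ U ∧ ∃ L : ℝ≥0, LipschitzOnWith L b U ∧
      Pool.Agent.L0h24.Gev.FewPreOn U m b := by
  have h1 : ContDiffAt ℝ 1 b v₀ := h.1.of_le (by exact_mod_cast hm)
  obtain ⟨K, U₁, hU₁, hLip⟩ := h1.exists_lipschitzOnWith
  choose U hU ε hε hb using mult_local hm h
  obtain ⟨T, hTs, hT⟩ := (isCompact_Icc (a := -(K : ℝ)) (b := (K : ℝ))).elim_nhds_subcover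
    (fun t => ball t (ε t)) (fun t _ => ball_mem_nhds t (hε t))
  have hN : U₁ ∩ ⋂ t ∈ T, U t ∈ 𝓝 v₀ :=
    Filter.inter_mem hU₁ ((Filter.biInter_finset_mem T).2 fun t _ => hU t)
  obtain ⟨O, hOs, hOo, hOm⟩ := _root_.mem_nhds_iff.1 hN
  refine ⟨O, hOo, hOm, K, hLip.mono (hOs.trans inter_subset_left), ?_⟩
  refine Filter.Eventually.of_forall fun t => Filter.Eventually.of_forall fun x => ?_
  apply encard_le_of
  intro V hV
  rcases le_or_gt |t| (K : ℝ) with ht | ht
  · have h2 := hT (show t ∈ Icc (-(K : ℝ)) K from abs_le.1 ht)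
    simp only [mem_iUnion, exists_prop] at h2
    obtain ⟨t', ht', hb'⟩ := h2
    rw [mem_ball, Real.dist_eq] at hb'
    apply hb t' t hb' x V
    intro v hv
    obtain ⟨hv1, _, hv3, _⟩ := hV v hv
    have h3 := (hOs hv1).2
    simp only [mem_iInter] at h3
    exact ⟨h3 t' ht', hv3⟩
  · refine le_trans ?_ hm
    rw [Finset.card_le_one]
    intro v hv w hw
    obtain ⟨hv1, _, hv3, _⟩ := hV v hv
    obtain ⟨hw1, _, hw3, _⟩ := hV w hw
    by_contra hne
    have h4 : 0 < ‖v - w‖ := norm_pos_iff.2 (sub_ne_zero.2 hne)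
    have h5 : b v - b w = -(t • (v - w)) := by
      have : b v = x - t • v := by rw [← hv3]; abel
      rw [this]
      have : b w = x - t • w := by rw [← hw3]; abel
      rw [this, smul_sub]
      abel
    have h6 := hLip.dist_le_mul v (hOs hv1).1 w (hOs hw1).1
    rw [dist_eq_norm, dist_eq_norm, h5, norm_neg, norm_smul, Real.norm_eq_abs] at h6
    nlinarith

/-- The inequality for large radii. -/
theorem large (hd : 2 ≤ d) {q : ℝ} (hq : ((d : ℝ) + 1) / d < q) {r : ℝ} (hr : 0 < r) :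
    ∃ C : ℝ, 0 < C ∧ ∀ δ : ℝ, r ≤ δ → δ < 1 → ∀ (ι : Type) [Fintype ι] (v β : ι → Vec d) (s : ι → ℝ),
        (∀ i, ‖v i‖ ≤ 1) → (∀ i j, i ≠ j → δ ≤ ‖dir (v i) - dir (v j)‖) →
        eLpNorm (fun y : Space d => ∑ i,
            (tube δ (dir (v i)) (WithLp.toLp 2 (β i + s i • v i, s i))).indicator (fun _ => (1 : ℝ)) y)
            (ENNReal.ofReal q) volume
          ≤ ENNReal.ofReal (C * (δ ^ ((d : ℝ) / q) * (Fintype.card ι : ℝ) ^ (1 - 1 / (q * d)))) := by
  classical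
  have hd1 : 1 ≤ d := by omega
  have hd0 : (0 : ℝ) < d := by exact_mod_cast hd1
  have hom := om_pos (d := d)
  set N₁ : ℝ := (10 * d * 1 / r) ^ d with hN₁
  have hN₁0 : 0 < N₁ := by positivity
  obtain ⟨C, hC, h⟩ := Pool.Agent.L0h24.SS.to_q hd hq (C₀ := 2 ^ d * om d * (3 + 16 * N₁)) (by positivity)
  refine ⟨C, hC, ?_⟩
  intro δ hδr hδ1 ι _ v β s hv hsep
  have hδ : 0 < δ := by linarith
  have hsep' : ∀ i j, i ≠ j → δ ≤ ‖v i - v j‖ := fun i j hij => (hsep i j hij).trans (dir_sub_le _ _)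
  have hcard : (Fintype.card ι : ℝ) ≤ N₁ := by
    have h1 := Pool.Agent.L0h24.SS.packing hd1 hδ hδ1.le v hsep' 0 Finset.univ
      (fun j _ => by rw [sub_zero]; exact hv j)
    rw [Finset.card_univ] at h1
    refine h1.trans ?_
    rw [hN₁]
    gcongr
  refine (h δ hδ ι v β s ?_).2
  rcases isEmpty_or_nonempty ι with he | hne
  · have : ∀ x t, Fe δ v β s x t = 0 := by
      intro x t
      unfold Fe
      simp
    simp only [this]
    rw [ENNReal.zero_rpow_of_pos two_pos]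
    simp
  have hN1' : 1 ≤ Fintype.card ι := Fintype.card_pos
  have hN1 : (1 : ℝ) ≤ (Fintype.card ι : ℝ) := by exact_mod_cast hN1'
  have h2 := Pool.Agent.L0h24.SS.l2 (I := univ) hδ hδ1 v β s hv hsep' (fun i => subset_univ _)
    (B := N₁) (by
      intro i
      calc ∑ j ∈ Finset.univ.filter (fun j => j ≠ i ∧ Pool.Agent.L0h24.SS.Inc univ δ v β i j), δ / ‖v j - v i‖
          ≤ ∑ _j ∈ Finset.univ.filter (fun j => j ≠ i ∧ Pool.Agent.L0h24.SS.Inc univ δ v β i j), (1 : ℝ) := by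
            refine Finset.sum_le_sum fun j hj => ?_
            have h3 := hsep' j i (Finset.mem_filter.1 hj).2.1
            exact div_le_one_of_le₀ h3 (norm_nonneg _)
        _ = ((Finset.univ.filter (fun j => j ≠ i ∧ Pool.Agent.L0h24.SS.Inc univ δ v β i j)).card : ℝ) := by
            rw [Finset.sum_const, nsmul_eq_mul, mul_one]
        _ ≤ Fintype.card ι := by exact_mod_cast Finset.card_le_univ _
        _ ≤ N₁ := hcard)
  refine h2.trans (ENNReal.ofReal_le_ofReal ?_)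
  set N : ℝ := (Fintype.card ι : ℝ) with hN
  have hlog0 : 0 ≤ Real.log N := Real.log_nonneg hN1
  calc (2 * δ) ^ d * om d * (N * (3 + 16 * N₁)) = 2 ^ d * om d * (3 + 16 * N₁) * (δ ^ d * (N * 1)) := by
        rw [mul_pow]; ring
    _ ≤ 2 ^ d * om d * (3 + 16 * N₁) * (δ ^ d * (N * (1 + Real.log N))) := by
        gcongr
        linarith

/-- **The inequality for families of finite type.** -/
theorem global (hd : 2 ≤ d) {m : ℕ} (hm : 1 ≤ m) {b : Vec d → Vec d} {Ω : Set (Vec d)}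
    (hΩ : IsCompact Ω) (hgood : ∀ v ∈ Ω, Good m b v) (K S : ℝ≥0) {q : ℝ}
    (hq : ((d : ℝ) + 1) / d < q) :
    ∃ C : ℝ, 0 < C ∧ ∀ δ : ℝ, 0 < δ → δ < 1 → ∀ (ι : Type) [Fintype ι] (v β : ι → Vec d) (s : ι → ℝ),
        (∀ i, v i ∈ Ω) → (∀ i, ‖v i‖ ≤ 1) → (∀ i, |s i| ≤ S) → (∀ i, ‖β i - b (v i)‖ ≤ K * δ) →
        (∀ i j, i ≠ j → δ ≤ ‖dir (v i) - dir (v j)‖) →
        eLpNorm (fun y : Space d => ∑ i,
            (tube δ (dir (v i)) (WithLp.toLp 2 (β i + s i • v i, s i))).indicator (fun _ => (1 : ℝ)) y)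
            (ENNReal.ofReal q) volume
          ≤ ENNReal.ofReal (C * (δ ^ ((d : ℝ) / q) * (Fintype.card ι : ℝ) ^ (1 - 1 / (q * d)))) := by
  classical
  have hd1 : 1 ≤ d := by omega
  have hd0 : (0 : ℝ) < d := by exact_mod_cast hd1
  have hq0 : 0 < q := lt_trans (by positivity) hq
  have hdq : (d : ℝ) + 1 < q * d := by rwa [div_lt_iff₀ hd0] at hq
  have hq1 : 1 ≤ q := by nlinarith
  have hθ0 : 0 ≤ 1 - 1 / (q * d) := by
    rw [sub_nonneg, div_le_one (by linarith)]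
    linarith
  obtain ⟨C₀, hC₀, hlip⟩ := Pool.Agent.L0h24.Gev.lipschitzOn d hd1 q hq
  have hloc : ∀ w : Vec d, ∃ (U : Set (Vec d)) (L : ℝ≥0), IsOpen U ∧ (w ∈ Ω → w ∈ U ∧
      LipschitzOnWith L b U ∧ Pool.Agent.L0h24.Gev.FewPreOn U m b) := by
    intro w
    by_cases hw : w ∈ Ω
    · obtain ⟨U, hU, hwU, L, hL, hF⟩ := few_local hm (hgood w hw)
      exact ⟨U, L, hU, fun _ => ⟨hwU, hL, hF⟩⟩
    · exact ⟨∅, 0, isOpen_empty, fun h => absurd h hw⟩
  choose U L hUo hU using hloc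
  obtain ⟨T, hTΩ, hT⟩ := hΩ.elim_nhds_subcover U (fun w hw => (hUo w).mem_nhds (hU w hw).1)
  obtain ⟨r, hr, hleb⟩ := lebesgue_number_lemma_of_metric (c := fun w : {w // w ∈ T} => U w.1) hΩ
    (fun w => hUo w.1) (by
      intro x hx
      have := hT hx
      simp only [mem_iUnion, exists_prop] at this
      obtain ⟨w, hw, hxw⟩ := this
      exact mem_iUnion.2 ⟨⟨w, hw⟩, hxw⟩)
  obtain ⟨C₁, hC₁, hlarge⟩ := large hd hq hr
  set Cw : Vec d → ℝ := fun w => C₀ * (1 + m : ℝ) ^ (1 - 1 / q) * (1 + K + L w + S : ℝ) ^ d with hCw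
  have hCw0 : ∀ w, 0 ≤ Cw w := fun w => by
    rw [hCw]
    positivity
  have hsum0 : 0 ≤ ∑ w ∈ T, Cw w := Finset.sum_nonneg fun w _ => hCw0 w
  refine ⟨C₁ + ∑ w ∈ T, Cw w, by linarith, ?_⟩
  intro δ hδ hδ1 ι _ v β s hv hv1 hs hβ hsep
  set N : ℝ := (Fintype.card ι : ℝ) with hN
  set X : ℝ := δ ^ ((d : ℝ) / q) * N ^ (1 - 1 / (q * d)) with hX
  have hX0 : 0 ≤ X := by positivity
  rcases le_or_gt r δ with hrδ | hrδ
  · refine (hlarge δ hrδ hδ1 ι v β s hv1 hsep).trans (ENNReal.ofReal_le_ofReal ?_)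
    apply mul_le_mul_of_nonneg_right _ hX0
    linarith
  set G : ι → Space d → ℝ := fun i => (tube δ (dir (v i)) (WithLp.toLp 2 (β i + s i • v i, s i))).indicator
    (fun _ => (1 : ℝ)) with hG
  have hGm : ∀ i, Measurable (G i) := fun i => measurable_const.indicator (tube_closed _ _ _).measurableSet
  choose cl hcl using fun i => hleb (v i) (hv i)
  have hcell : ∀ c ∈ T, eLpNorm (fun y => ∑ i ∈ Finset.univ.filter (fun i => (cl i).1 = c), G i y)
      (ENNReal.ofReal q) volume ≤ ENNReal.ofReal (Cw c * X) := by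
    intro c hc
    have hcΩ := hTΩ c hc
    have key := hlip (L c) K S m (U c) b (hUo c) (hU c hcΩ).2.1 (hU c hcΩ).2.2 δ hδ hδ1
      {i // (cl i).1 = c} (fun i => v i.1) (fun i => β i.1) (fun i => s i.1) (fun i => hv1 i.1)
      (fun i => hs i.1) (fun i => hβ i.1)
      (fun i j hij => hsep i.1 j.1 (fun h => hij (Subtype.ext h))) (by
        intro i
        have h1 := hcl i.1
        rw [i.2] at h1
        exact (ball_subset_ball (by linarith)).trans h1)
    have e1 : (fun y => ∑ i ∈ Finset.univ.filter (fun i => (cl i).1 = c), G i y) =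
        fun y : Space d => ∑ i : {i // (cl i).1 = c}, (tube δ (dir (v i.1))
          (WithLp.toLp 2 (β i.1 + s i.1 • v i.1, s i.1))).indicator (fun _ => (1 : ℝ)) y := by
      funext y
      exact Finset.sum_subtype _ (by simp) (fun i => G i y)
    rw [e1]
    refine key.trans (ENNReal.ofReal_le_ofReal ?_)
    have h2 : (Fintype.card {i // (cl i).1 = c} : ℝ) ≤ N := by
      rw [hN]
      exact_mod_cast Fintype.card_subtype_le _
    calc C₀ * (1 + m : ℝ) ^ (1 - 1 / q) * (1 + K + L c + S : ℝ) ^ d * δ ^ ((d : ℝ) / q) *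
          (Fintype.card {i // (cl i).1 = c} : ℝ) ^ (1 - 1 / (q * d))
        = Cw c * (δ ^ ((d : ℝ) / q) * (Fintype.card {i // (cl i).1 = c} : ℝ) ^ (1 - 1 / (q * d))) := by
          rw [hCw]; ring
      _ ≤ Cw c * X := by
          apply mul_le_mul_of_nonneg_left _ (hCw0 c)
          rw [hX]
          gcongr
  have hsum : (fun y : Space d => ∑ i, G i y) =
      ∑ c ∈ T, (fun y => ∑ i ∈ Finset.univ.filter (fun i => (cl i).1 = c), G i y) := by
    funext y
    rw [Finset.sum_apply]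
    exact (Finset.sum_fiberwise_of_maps_to (fun i _ => (cl i).2) (fun i => G i y)).symm
  rw [hsum]
  refine (eLpNorm_sum_le (fun c _ => (Finset.measurable_sum _ (fun i _ => hGm i)).aestronglyMeasurable)
    (by rw [← ENNReal.ofReal_one]; exact ENNReal.ofReal_le_ofReal hq1)).trans ?_
  calc
    ∑ c ∈ T, eLpNorm (fun y => ∑ i ∈ Finset.univ.filter (fun i => (cl i).1 = c), G i y)
        (ENNReal.ofReal q) volume
      ≤ ∑ c ∈ T, ENNReal.ofReal (Cw c * X) := Finset.sum_le_sum hcell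
    _ = ENNReal.ofReal ((∑ c ∈ T, Cw c) * X) := by
        rw [← ENNReal.ofReal_sum_of_nonneg (fun c _ => mul_nonneg (hCw0 c) hX0), Finset.sum_mul]
    _ ≤ ENNReal.ofReal ((C₁ + ∑ w ∈ T, Cw w) * X) := by
        apply ENNReal.ofReal_le_ofReal
        apply mul_le_mul_of_nonneg_right _ hX0
        linarith

end Pool.Agent.L0h24.GF
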