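import Pool.Agent.L0h24.GF.Generic

set_option autoImplicit false

/-! For almost every perturbation and almost every slope all the real eigenvalues are of geometric
multiplicity one. -/

open MeasureTheory Set Topology Asymptotics Filter
open scoped NNReal ENNReal

namespace Pool.Agent.L0h24.GF

open Pool.Agent.H810R3.Tub (Vec)

variable {d m : ℕ}

/-- A vector with the coordinates `0` at `i₀`, `1` at `i` and the given ones elsewhere. -/
noncomputable def vec (i₀ i : Fin d) (c : ({i₀, i}ᶜ : Finset (Fin d)) → ℝ) : Vec d :=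
  EuclideanSpace.single i (1 : ℝ) +
    ∑ l : ({i₀, i}ᶜ : Finset (Fin d)), c l • EuclideanSpace.single (l : Fin d) (1 : ℝ)

theorem vec_surj {i₀ i : Fin d} (hi : i ≠ i₀) {x : Vec d} (h0 : x i₀ = 0) (h1 : x i = 1) :
    vec i₀ i (fun l => x l) = x := by
  ext l
  unfold vec
  have e0 : (EuclideanSpace.single i (1 : ℝ) +
    ∑ l : ({i₀, i}ᶜ : Finset (Fin d)), x l • EuclideanSpace.single (l : Fin d) (1 : ℝ) : Vec d) l =
    (EuclideanSpace.single i (1 : ℝ) : Vec d) l +
    ∑ l' : ({i₀, i}ᶜ : Finset (Fin d)), x l' * (EuclideanSpace.single (l' : Fin d) (1 : ℝ) : Vec d) l := by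
    have h1 : ∀ y : Vec d, y l = (EuclideanSpace.proj l : Vec d →L[ℝ] ℝ) y := fun y => rfl
    rw [h1, map_add, map_sum]
    rfl
  rw [e0]
  by_cases hl : l = i₀ ∨ l = i
  · have e1 : ∑ l' : ({i₀, i}ᶜ : Finset (Fin d)), x l' *
        (EuclideanSpace.single (l' : Fin d) (1 : ℝ) : Vec d) l = 0 := by
      apply Finset.sum_eq_zero
      intro l' _
      have h2 : l ≠ (l' : Fin d) := by
        intro h3
        have h4 := l'.2
        rw [← h3] at h4
        rw [Finset.mem_compl, Finset.mem_insert, Finset.mem_singleton] at h4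
        exact h4 hl
      simp [h2]
    rw [e1, add_zero]
    rcases hl with rfl | rfl
    · rw [h0]
      simp [hi.symm]
    · rw [h1]
      simp
  · rw [Finset.sum_eq_single ⟨l, by
      rw [Finset.mem_compl, Finset.mem_insert, Finset.mem_singleton]
      exact hl⟩]
    · have h2 : l ≠ i := fun h => hl (Or.inr h)
      simp [h2]
    · intro l' _ hl'
      have h2 : l ≠ (l' : Fin d) := fun h3 => hl' (Subtype.ext h3.symm)
      simp [h2]
    · intro hh
      exact absurd (Finset.mem_univ _) hh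

/-- For a fixed slope. -/
theorem kernel_null (hd : 2 ≤ d) (hm : 1 ≤ m) {b : Vec d → Vec d} (hb : ContDiff ℝ 2 b)
    (i₀ : Fin d) (v : Vec d) :
    volume {p : Par d m | ∃ t x, x ≠ 0 ∧ x i₀ = 0 ∧ dS (pert b p) v t x = 0} = 0 := by
  have := haar_par d m
  set j₀ : Fin m := ⟨0, hm⟩ with hj₀
  have key : ∀ i : Fin d, i ≠ i₀ →
      volume {p : Par d m | ∃ t x, x i = 1 ∧ x i₀ = 0 ∧ dS (pert b p) v t x = 0} = 0 := by
    intro i hi
    set π : Par d m →L[ℝ] Vec d :=
      (ContinuousLinearMap.proj (R := ℝ) (φ := fun _ : Fin m => Vec d) j₀).comp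
        (ContinuousLinearMap.proj i) with hπ
    have hπa : ∀ p, π p = p i j₀ := fun p => rfl
    set inc : Vec d →L[ℝ] Par d m := (inc0 d m j₀).comp
      (ContinuousLinearMap.single ℝ (fun _ : Fin d => Vec d) i) with hinc
    have hinca : ∀ q k j, inc q k j = if j = j₀ then (if k = i then q else 0) else 0 := by
      intro q k j
      show inc0 d m j₀ (Pi.single i q) k j = _
      rw [inc0_apply, Pi.single_apply]
    set σ : (ℝ × (({i₀, i}ᶜ : Finset (Fin d)) → ℝ)) × Par d m → Vec d := fun y =>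
      -dS (pert b y.2) v y.1.1 (vec i₀ i y.1.2) with hσ
    have hσc : ContDiff ℝ 1 σ := by
      apply ContDiff.neg
      apply dS_contDiff (n := 1) (by norm_num; exact hb) contDiff_snd contDiff_const
        (contDiff_fst.comp contDiff_fst)
      unfold vec
      apply contDiff_const.add
      apply ContDiff.sum
      intro l _
      have h1 : ContDiff ℝ 1 (fun y : (ℝ × (({i₀, i}ᶜ : Finset (Fin d)) → ℝ)) × Par d m => y.1.2) :=
        contDiff_snd.comp contDiff_fst
      exact ((contDiff_pi.1 h1) l).smul contDiff_const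
    have hdim : Module.finrank ℝ (ℝ × (({i₀, i}ᶜ : Finset (Fin d)) → ℝ)) <
        Module.finrank ℝ (Vec d) := by
      rw [Module.finrank_prod]
      simp only [Module.finrank_self, Module.finrank_fintype_fun_eq_card, Fintype.card_coe,
        Finset.card_compl, Finset.card_pair hi.symm, finrank_euclideanSpace, Fintype.card_fin]
      omega
    refine measure_mono_null ?_ (null_param volume π inc ?_ hσc hdim)
    · rintro p ⟨t, x, hx1, hx0, h⟩
      refine ⟨(t, fun l => x l), ?_⟩
      show π p = -dS (pert b (p - inc (π p))) v t (vec i₀ i (fun l => x l))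
      rw [vec_surj hi hx0 hx1]
      have h1 : dS (pert b ((p - inc (π p)) + inc (π p))) v t x = 0 := by
        rw [sub_add_cancel, h]
      rw [dS_add ((hb.differentiable (by norm_num)) v)] at h1
      have h2 : ∑ l : Fin d, ∑ j : Fin m, ((((j : ℕ) : ℝ) + 1) * (v l) ^ (j : ℕ) * x l) •
          inc (π p) l j = π p := by
        rw [Finset.sum_eq_single i, Finset.sum_eq_single j₀]
        · rw [hinca, if_pos rfl, if_pos rfl, hx1]
          simp [hj₀]
        · intro j _ hj
          rw [hinca, if_neg hj, smul_zero]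
        · intro hh
          exact absurd (Finset.mem_univ _) hh
        · intro l _ hl
          apply Finset.sum_eq_zero
          intro j _
          rw [hinca, if_neg hl, ite_self, smul_zero]
        · intro hh
          exact absurd (Finset.mem_univ _) hh
      rw [h2] at h1
      exact eq_neg_of_add_eq_zero_right h1
    · intro q
      rw [hπa, hinca, if_pos rfl, if_pos rfl]
  refine measure_mono_null (t := ⋃ i : {i : Fin d // i ≠ i₀},
    {p : Par d m | ∃ t x, x i = 1 ∧ x i₀ = 0 ∧ dS (pert b p) v t x = 0}) ?_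
    (measure_iUnion_null fun i => key i i.2)
  rintro p ⟨t, x, hx, hx0, h⟩
  obtain ⟨i, hi⟩ : ∃ i, x i ≠ 0 := by
    by_contra hcon
    push Not at hcon
    exact hx (by ext i; exact hcon i)
  have hii : i ≠ i₀ := by
    rintro rfl
    exact hi hx0
  rw [mem_iUnion]
  refine ⟨⟨i, hii⟩, t, (x i)⁻¹ • x, ?_, ?_, ?_⟩
  · show (x i)⁻¹ * x i = 1
    exact inv_mul_cancel₀ hi
  · show (x i)⁻¹ * x i₀ = 0
    rw [hx0, mul_zero]
  · rw [map_smul, h, smul_zero]

/-- Closed sets are projected to closed sets along compact sets. -/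
theorem closed_proj {A B : Type*} [TopologicalSpace A] [TopologicalSpace B] {K : Set A}
    (hK : IsCompact K) {Z : Set (A × B)} (hZ : IsClosed Z) : IsClosed {z : B | ∃ a ∈ K, (a, z) ∈ Z} := by
  have := isCompact_iff_compactSpace.1 hK
  have hc : IsClosed {w : K × B | ((w.1 : A), w.2) ∈ Z} :=
    hZ.preimage ((continuous_subtype_val.comp continuous_fst).prodMk continuous_snd)
  have h1 := isClosedMap_snd_of_compactSpace _ hc
  convert h1 using 1
  ext z
  constructor
  · rintro ⟨a, ha, h⟩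
    exact ⟨(⟨a, ha⟩, z), h, rfl⟩
  · rintro ⟨⟨⟨a, ha⟩, z'⟩, h, rfl⟩
    exact ⟨a, ha, h⟩

/-- The set of the parameters and slopes with a bad kernel is measurable. -/
theorem bad_measurable {b : Vec d → Vec d} (hb : ContDiff ℝ 1 b) (i₀ : Fin d) :
    MeasurableSet {z : Par d m × Vec d | ∃ t x, x ≠ 0 ∧ x i₀ = 0 ∧ dS (pert b z.1) z.2 t x = 0} := by
  have h0 : {z : Par d m × Vec d | ∃ t x, x ≠ 0 ∧ x i₀ = 0 ∧ dS (pert b z.1) z.2 t x = 0} =
      ⋃ n : ℕ, {z : Par d m × Vec d | ∃ t x, t ∈ Icc (-(n : ℝ)) n ∧ x ∈ Metric.sphere (0 : Vec d) 1 ∧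
        x i₀ = 0 ∧ dS (pert b z.1) z.2 t x = 0} := by
    ext z
    rw [mem_iUnion]
    constructor
    · rintro ⟨t, x, hx, hx0, h⟩
      obtain ⟨n, hn⟩ := exists_nat_ge |t|
      refine ⟨n, t, ‖x‖⁻¹ • x, abs_le.1 hn, ?_, ?_, ?_⟩
      · rw [mem_sphere_zero_iff_norm, norm_smul, norm_inv, norm_norm,
          inv_mul_cancel₀ (norm_ne_zero_iff.2 hx)]
      · show ‖x‖⁻¹ * x i₀ = 0
        rw [hx0, mul_zero]
      · rw [map_smul, h, smul_zero]
    · rintro ⟨n, t, x, _, hx, hx0, h⟩
      refine ⟨t, x, ?_, hx0, h⟩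
      rintro rfl
      rw [mem_sphere_zero_iff_norm, norm_zero] at hx
      exact zero_ne_one hx
  rw [h0]
  apply MeasurableSet.iUnion
  intro n
  apply IsClosed.measurableSet
  have hcomp : IsCompact ((Icc (-(n : ℝ)) n) ×ˢ (Metric.sphere (0 : Vec d) 1)) :=
    isCompact_Icc.prod (isCompact_sphere _ _)
  have hc : Continuous (fun z : (ℝ × Vec d) × (Par d m × Vec d) =>
      dS (pert b z.2.1) z.2.2 z.1.1 z.1.2) := by
    have h2 : ContDiff ℝ 0 (fun z : (ℝ × Vec d) × (Par d m × Vec d) =>
        dS (pert b z.2.1) z.2.2 z.1.1 z.1.2) :=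
      dS_contDiff (Y := (ℝ × Vec d) × (Par d m × Vec d)) (n := 0) (b := b) (by simpa using hb)
        (f := fun z => z.2.1) (g := fun z => z.2.2) (t := fun z => z.1.1) (x := fun z => z.1.2)
        (contDiff_fst.comp contDiff_snd) (contDiff_snd.comp contDiff_snd)
        (contDiff_fst.comp contDiff_fst) (contDiff_snd.comp contDiff_fst)
    exact h2.continuous
  have hc' : Continuous (fun z : (ℝ × Vec d) × (Par d m × Vec d) => z.1.2 i₀) := by
    have h1 : Continuous (fun y : Vec d => y i₀) := (EuclideanSpace.proj (𝕜 := ℝ) i₀).continuous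
    exact h1.comp (continuous_snd.comp continuous_fst)
  have hZ : IsClosed {z : (ℝ × Vec d) × (Par d m × Vec d) |
      z.1.2 i₀ = 0 ∧ dS (pert b z.2.1) z.2.2 z.1.1 z.1.2 = 0} :=
    (isClosed_eq hc' continuous_const).inter (isClosed_eq hc continuous_const)
  have h1 := closed_proj hcomp hZ
  convert h1 using 1
  ext z
  constructor
  · rintro ⟨t, x, ht, hx, hx0, h⟩
    exact ⟨(t, x), ⟨ht, hx⟩, hx0, h⟩
  · rintro ⟨⟨t, x⟩, ⟨ht, hx⟩, hx0, h⟩
    exact ⟨t, x, ht, hx, hx0, h⟩

/-- For almost every perturbation, almost every slope is regular. -/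
theorem kernel_ae (hd : 2 ≤ d) (hm : 1 ≤ m) {b : Vec d → Vec d} (hb : ContDiff ℝ 2 b) (i₀ : Fin d) :
    ∀ᵐ p : Par d m, ∀ᵐ v : Vec d, ¬ ∃ t x, x ≠ 0 ∧ x i₀ = 0 ∧ dS (pert b p) v t x = 0 := by
  have : SigmaFinite (volume : Measure (Par d m)) :=
    Measure.pi.sigmaFinite (fun _ : Fin d => (volume : Measure (Fin m → Vec d)))
  have hmeas := bad_measurable (m := m) (hb.of_le (by norm_num)) i₀
  have h1 : (volume : Measure (Par d m)).prod (volume : Measure (Vec d))
      {z : Par d m × Vec d | ∃ t x, x ≠ 0 ∧ x i₀ = 0 ∧ dS (pert b z.1) z.2 t x = 0} = 0 := by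
    rw [Measure.prod_apply_symm hmeas, lintegral_eq_zero_iff]
    · filter_upwards with v
      exact kernel_null hd hm hb i₀ v
    · exact measurable_measure_prodMk_right hmeas
  rw [Measure.measure_prod_null hmeas] at h1
  filter_upwards [h1] with p hp
  rw [ae_iff]
  simp only [not_not]
  exact hp

end Pool.Agent.L0h24.GF
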