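import Pool.Agent.L0h24.GF.Dir

set_option autoImplicit false

/-! Null sets of parameters, by counting dimensions. -/

open MeasureTheory Set Topology Asymptotics
open scoped NNReal ENNReal

namespace Pool.Agent.L0h24.GF

section
variable {X P Q : Type*} [NormedAddCommGroup X] [NormedSpace ℝ X] [FiniteDimensional ℝ X]
  [NormedAddCommGroup P] [NormedSpace ℝ P] [FiniteDimensional ℝ P] [MeasurableSpace P] [BorelSpace P]
  [NormedAddCommGroup Q] [NormedSpace ℝ Q] [FiniteDimensional ℝ Q]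

/-- The range of a map of class `C^1` from a space of smaller dimension is a null set. -/
theorem null_range (μ : Measure P) [μ.IsAddHaarMeasure] {Θ : X → P} (hΘ : ContDiff ℝ 1 Θ)
    (h : Module.finrank ℝ X < Module.finrank ℝ P) : μ (range Θ) = 0 := by
  have h1 := hΘ.dimH_range_le
  have h2 : μ ≪ Measure.hausdorffMeasure (((Module.finrank ℝ P : ℝ≥0)) : ℝ) := by
    have := isAddHaarMeasure_hausdorffMeasure (E := P)
    have h3 : (((Module.finrank ℝ P : ℝ≥0)) : ℝ) = (Module.finrank ℝ P : ℝ) := by simp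
    rw [h3]
    exact Measure.absolutelyContinuous_isAddHaarMeasure _ _
  refine measure_zero_of_dimH_lt h2 (lt_of_le_of_lt h1 ?_)
  exact_mod_cast h

omit [FiniteDimensional ℝ Q] in
/-- The parameters whose component in `Q` is determined by fewer than `dim Q` variables and by the
other components form a null set. -/
theorem null_param (μ : Measure P) [μ.IsAddHaarMeasure] (π : P →L[ℝ] Q) (inc : Q →L[ℝ] P)
    (hπ : ∀ q, π (inc q) = q) {σ : X × P → Q} (hσ : ContDiff ℝ 1 σ)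
    (h : Module.finrank ℝ X < Module.finrank ℝ Q) :
    μ {p | ∃ x, π p = σ (x, p - inc (π p))} = 0 := by
  set K : Submodule ℝ P := LinearMap.ker (π : P →ₗ[ℝ] Q) with hK
  set Θ : X × K → P := fun y => (y.2 : P) + inc (σ (y.1, (y.2 : P))) with hΘ
  have hc : ContDiff ℝ 1 Θ := by
    have h1 : ContDiff ℝ 1 (fun y : X × K => (y.2 : P)) := K.subtypeL.contDiff.comp contDiff_snd
    exact h1.add (inc.contDiff.comp (hσ.comp (contDiff_fst.prodMk h1)))
  have hdim : Module.finrank ℝ (X × K) < Module.finrank ℝ P := by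
    rw [Module.finrank_prod]
    have h2 := LinearMap.finrank_range_add_finrank_ker (π : P →ₗ[ℝ] Q)
    have h3 : LinearMap.range (π : P →ₗ[ℝ] Q) = ⊤ := by
      rw [LinearMap.range_eq_top]
      intro q
      exact ⟨inc q, hπ q⟩
    rw [h3, finrank_top] at h2
    have h4 : Module.finrank ℝ K = Module.finrank ℝ (LinearMap.ker (π : P →ₗ[ℝ] Q)) := rfl
    omega
  refine measure_mono_null ?_ (null_range μ hc hdim)
  rintro p ⟨x, hx⟩
  refine ⟨(x, ⟨p - inc (π p), ?_⟩), ?_⟩
  · show π (p - inc (π p)) = 0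
    rw [map_sub, hπ, sub_self]
  · show (p - inc (π p)) + inc (σ (x, p - inc (π p))) = p
    rw [← hx]
    abel

end

/-- The binomial expansion. -/
theorem expand (m n : ℕ) (hn : n < m) (s a : ℝ) :
    (a + s) ^ (n + 1) - a ^ (n + 1) =
      ∑ j : Fin m, s ^ ((j : ℕ) + 1) * (a ^ (n - (j : ℕ)) * ((n + 1).choose ((j : ℕ) + 1) : ℝ)) := by
  have h0 : ∑ j : Fin m, s ^ ((j : ℕ) + 1) * (a ^ (n - (j : ℕ)) * ((n + 1).choose ((j : ℕ) + 1) : ℝ)) =
      ∑ j ∈ Finset.range m, s ^ (j + 1) * (a ^ (n - j) * ((n + 1).choose (j + 1) : ℝ)) :=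
    (Finset.sum_range (fun j => s ^ (j + 1) * (a ^ (n - j) * ((n + 1).choose (j + 1) : ℝ)))).symm
  rw [h0, add_comm a s, add_pow, Finset.sum_range_succ']
  simp only [pow_zero, one_mul, Nat.sub_zero, Nat.choose_zero_right, Nat.cast_one, mul_one]
  rw [add_sub_cancel_right]
  have h1 : ∑ j ∈ Finset.range m, s ^ (j + 1) * (a ^ (n - j) * ((n + 1).choose (j + 1) : ℝ)) =
      ∑ j ∈ Finset.range (n + 1), s ^ (j + 1) * (a ^ (n - j) * ((n + 1).choose (j + 1) : ℝ)) := by
    symm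
    apply Finset.sum_subset
    · intro j hj
      rw [Finset.mem_range] at hj ⊢
      omega
    · intro j _ hj
      rw [Finset.mem_range] at hj
      rw [Nat.choose_eq_zero_of_lt (by omega)]
      simp
  rw [h1]
  refine Finset.sum_congr rfl fun j _ => ?_
  rw [Nat.add_sub_add_right]
  ring

/-- If a translated polynomial agrees to the order `m` with a given one, its coefficients are
determined. -/
theorem shift {F : Type*} [NormedAddCommGroup F] [NormedSpace ℝ F] {m : ℕ} (h p : Fin m → F) (a : ℝ)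
    (ho : (fun s : ℝ => ∑ i : Fin m, s ^ ((i : ℕ) + 1) • h i +
      ∑ j : Fin m, ((a + s) ^ ((j : ℕ) + 1) - a ^ ((j : ℕ) + 1)) • p j) =o[𝓝 0] fun s => s ^ m) :
    ∀ j, p j = -∑ i : Fin m, ((-a) ^ ((i : ℕ) - (j : ℕ)) * (((i : ℕ) + 1).choose ((j : ℕ) + 1) : ℝ)) • h i := by
  have key : ∀ (w : Fin m → F) (b s : ℝ),
      ∑ j : Fin m, ((b + s) ^ ((j : ℕ) + 1) - b ^ ((j : ℕ) + 1)) • w j =
        ∑ i : Fin m, s ^ ((i : ℕ) + 1) • ∑ j : Fin m,
          (b ^ ((j : ℕ) - (i : ℕ)) * (((j : ℕ) + 1).choose ((i : ℕ) + 1) : ℝ)) • w j := by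
    intro w b s
    simp only [Finset.smul_sum, smul_smul]
    rw [Finset.sum_comm]
    refine Finset.sum_congr rfl fun j _ => ?_
    rw [expand m j j.2 s b, Finset.sum_smul]
  have h1 : ∀ i, h i + ∑ j : Fin m,
      (a ^ ((j : ℕ) - (i : ℕ)) * (((j : ℕ) + 1).choose ((i : ℕ) + 1) : ℝ)) • p j = 0 := by
    apply poly_o
    refine ho.congr' (Filter.Eventually.of_forall fun s => ?_) Filter.EventuallyEq.rfl
    simp only
    rw [key p a s, ← Finset.sum_add_distrib]
    simp only [smul_add]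
  -- the identity for all `s`
  have h2 : ∀ s : ℝ, ∑ i : Fin m, s ^ ((i : ℕ) + 1) • h i +
      ∑ j : Fin m, ((a + s) ^ ((j : ℕ) + 1) - a ^ ((j : ℕ) + 1)) • p j = 0 := by
    intro s
    rw [key p a s, ← Finset.sum_add_distrib]
    apply Finset.sum_eq_zero
    intro i _
    rw [← smul_add, h1 i, smul_zero]
  have h3 : ∀ s : ℝ, ∑ j : Fin m, s ^ ((j : ℕ) + 1) • (p j + ∑ i : Fin m,
      ((-a) ^ ((i : ℕ) - (j : ℕ)) * (((i : ℕ) + 1).choose ((j : ℕ) + 1) : ℝ)) • h i) = 0 := by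
    intro s
    have e1 := h2 (-a + s)
    have e2 := h2 (-a)
    have e3 := key h (-a) s
    simp only [smul_add, Finset.sum_add_distrib]
    rw [← e3]
    simp only [sub_smul, Finset.sum_sub_distrib] at e1 e2 ⊢
    have e4 : a + (-a + s) = s := by ring
    have e5 : a + -a = 0 := by ring
    rw [e4] at e1
    rw [e5] at e2
    have e6 : ∑ j : Fin m, (0 : ℝ) ^ ((j : ℕ) + 1) • p j = 0 :=
      Finset.sum_eq_zero fun j _ => by rw [zero_pow (Nat.succ_ne_zero _), zero_smul]
    rw [e6] at e2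
    have e7 : ∑ i : Fin m, (-a) ^ ((i : ℕ) + 1) • h i = ∑ j : Fin m, a ^ ((j : ℕ) + 1) • p j := by
      rw [zero_sub] at e2
      exact eq_of_sub_eq_zero (by rw [sub_eq_add_neg]; exact e2)
    rw [e7]
    rw [← e1]
    abel
  have h4 := poly_o (fun j : Fin m => p j + ∑ i : Fin m,
      ((-a) ^ ((i : ℕ) - (j : ℕ)) * (((i : ℕ) + 1).choose ((j : ℕ) + 1) : ℝ)) • h i) (by
    simp only [h3]
    exact isLittleO_zero _ _)
  intro j
  exact eq_neg_of_add_eq_zero_left (h4 j)

end Pool.Agent.L0h24.GF
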