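import Pool.Agent.L0h24.GF.Kernel
import Pool.Agent.L0h24.GF.Global

set_option autoImplicit false

/-! The regular slopes of a family of lines. -/

open MeasureTheory Set Topology Asymptotics Filter
open scoped NNReal ENNReal RealInnerProductSpace

namespace Pool.Agent.L0h24.GF

open Pool.Agent.H810R3.Tub (Vec)

variable {d m : ℕ}

/-- The regular slopes: all the real eigenvalues of the derivative are of geometric
multiplicity one. -/
def Reg (b : Vec d → Vec d) : Set (Vec d) :=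
  {v | ∀ t : ℝ, Module.finrank ℝ (LinearMap.ker (dS b v t : Vec d →ₗ[ℝ] Vec d)) ≤ 1}

theorem not_le_one_iff (A : Vec d →L[ℝ] Vec d) :
    ¬ Module.finrank ℝ (LinearMap.ker (A : Vec d →ₗ[ℝ] Vec d)) ≤ 1 ↔
      ∃ x y : Vec d, ‖x‖ = 1 ∧ ‖y‖ = 1 ∧ ⟪x, y⟫ = 0 ∧ A x = 0 ∧ A y = 0 := by
  set W := LinearMap.ker (A : Vec d →ₗ[ℝ] Vec d) with hW
  constructor
  · intro h
    have h2 : 1 < Module.finrank ℝ W := not_le.1 h
    set B := stdOrthonormalBasis ℝ W with hB
    have ho := B.orthonormal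
    set i : Fin (Module.finrank ℝ W) := ⟨0, by omega⟩ with hi
    set j : Fin (Module.finrank ℝ W) := ⟨1, h2⟩ with hj
    refine ⟨B i, B j, ?_, ?_, ?_, (B i).2, (B j).2⟩
    · exact ho.1 i
    · exact ho.1 j
    · have h3 : ⟪B i, B j⟫ = 0 := ho.2 (by
        intro h4
        have := congrArg Fin.val h4
        simp [hi, hj] at this)
      exact h3
  · rintro ⟨x, y, hx, hy, hxy, hAx, hAy⟩ hle
    rw [finrank_le_one_iff] at hle
    obtain ⟨u, hu⟩ := hle
    obtain ⟨c1, hc1⟩ := hu ⟨x, hAx⟩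
    obtain ⟨c2, hc2⟩ := hu ⟨y, hAy⟩
    have e1 : c1 • (u : Vec d) = x := congrArg Subtype.val hc1
    have e2 : c2 • (u : Vec d) = y := congrArg Subtype.val hc2
    rw [← e1, ← e2, real_inner_smul_left, real_inner_smul_right, real_inner_self_eq_norm_sq] at hxy
    rw [← e1, norm_smul] at hx
    rw [← e2, norm_smul] at hy
    rcases mul_eq_zero.1 hxy with h | h
    · rw [h, norm_zero, zero_mul] at hx
      exact zero_ne_one hx
    · rcases mul_eq_zero.1 h with h | h
      · rw [h, norm_zero, zero_mul] at hy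
        exact zero_ne_one hy
      · have : ‖(u : Vec d)‖ = 0 := by
          exact pow_eq_zero_iff (two_ne_zero) |>.1 h
        rw [this, mul_zero] at hx
        exact zero_ne_one hx

theorem exists_kernel_coord (A : Vec d →L[ℝ] Vec d) (i₀ : Fin d)
    (h : ¬ Module.finrank ℝ (LinearMap.ker (A : Vec d →ₗ[ℝ] Vec d)) ≤ 1) :
    ∃ x : Vec d, x ≠ 0 ∧ x i₀ = 0 ∧ A x = 0 := by
  obtain ⟨x, y, hx, hy, hxy, hAx, hAy⟩ := (not_le_one_iff A).1 h
  by_cases hx0 : x i₀ = 0
  · refine ⟨x, ?_, hx0, hAx⟩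
    rintro rfl
    rw [norm_zero] at hx
    exact zero_ne_one hx
  · refine ⟨y i₀ • x - x i₀ • y, ?_, ?_, ?_⟩
    · intro hz
      have h1 : ⟪y i₀ • x - x i₀ • y, y⟫ = 0 := by rw [hz, inner_zero_left]
      rw [inner_sub_left, real_inner_smul_left, real_inner_smul_left, hxy,
        real_inner_self_eq_norm_sq, hy] at h1
      apply hx0
      linarith
    · show y i₀ * x i₀ - x i₀ * y i₀ = 0
      ring
    · rw [map_sub, map_smul, map_smul, hAx, hAy, smul_zero, smul_zero, sub_zero]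

theorem eq_zero_of_two (A : Vec 2 →L[ℝ] Vec 2)
    (h : ¬ Module.finrank ℝ (LinearMap.ker (A : Vec 2 →ₗ[ℝ] Vec 2)) ≤ 1) : A = 0 := by
  have h1 : Module.finrank ℝ (Vec 2) = 2 := by simp
  have h2 := Submodule.finrank_le (LinearMap.ker (A : Vec 2 →ₗ[ℝ] Vec 2))
  have h3 : LinearMap.ker (A : Vec 2 →ₗ[ℝ] Vec 2) = ⊤ := by
    apply Submodule.eq_top_of_finrank_eq
    omega
  have h4 := LinearMap.ker_eq_top.1 h3
  exact ContinuousLinearMap.coe_injective h4

/-- The set of the regular slopes is open. -/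
theorem reg_open {b : Vec d → Vec d} (hb : ContDiff ℝ 1 b) : IsOpen (Reg b) := by
  have hcf : Continuous (fderiv ℝ b) := hb.continuous_fderiv one_ne_zero
  rw [isOpen_iff_mem_nhds]
  intro v₀ hv₀
  obtain ⟨R, hR⟩ := (isCompact_closedBall v₀ 1).exists_bound_of_continuousOn hcf.continuousOn
  set K : Set (ℝ × Vec d × Vec d) := Icc (-R) R ×ˢ (Metric.sphere 0 1 ×ˢ Metric.sphere 0 1) with hK
  have hKc : IsCompact K := isCompact_Icc.prod ((isCompact_sphere _ _).prod (isCompact_sphere _ _))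
  have hc1 : Continuous fun z : (ℝ × Vec d × Vec d) × Vec d => dS b z.2 z.1.1 z.1.2.1 := by
    unfold dS
    have h1 : Continuous fun z : (ℝ × Vec d × Vec d) × Vec d => fderiv ℝ b z.2 z.1.2.1 :=
      (hcf.comp continuous_snd).clm_apply (continuous_fst.comp (continuous_snd.comp continuous_fst))
    exact h1.add ((continuous_fst.comp continuous_fst).smul
      (continuous_fst.comp (continuous_snd.comp continuous_fst)))
  have hc2 : Continuous fun z : (ℝ × Vec d × Vec d) × Vec d => dS b z.2 z.1.1 z.1.2.2 := by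
    unfold dS
    have h1 : Continuous fun z : (ℝ × Vec d × Vec d) × Vec d => fderiv ℝ b z.2 z.1.2.2 :=
      (hcf.comp continuous_snd).clm_apply (continuous_snd.comp (continuous_snd.comp continuous_fst))
    exact h1.add ((continuous_fst.comp continuous_fst).smul
      (continuous_snd.comp (continuous_snd.comp continuous_fst)))
  have hc3 : Continuous fun z : (ℝ × Vec d × Vec d) × Vec d => (⟪z.1.2.1, z.1.2.2⟫ : ℝ) :=
    Continuous.inner (continuous_fst.comp (continuous_snd.comp continuous_fst))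
      (continuous_snd.comp (continuous_snd.comp continuous_fst))
  have hZ : IsClosed {z : (ℝ × Vec d × Vec d) × Vec d | (⟪z.1.2.1, z.1.2.2⟫ : ℝ) = 0 ∧
      dS b z.2 z.1.1 z.1.2.1 = 0 ∧ dS b z.2 z.1.1 z.1.2.2 = 0} :=
    (isClosed_eq hc3 continuous_const).inter
      ((isClosed_eq hc1 continuous_const).inter (isClosed_eq hc2 continuous_const))
  have hcl := closed_proj hKc hZ
  have hnot : v₀ ∉ {v : Vec d | ∃ a ∈ K, (a, v) ∈ {z : (ℝ × Vec d × Vec d) × Vec d |
      (⟪z.1.2.1, z.1.2.2⟫ : ℝ) = 0 ∧ dS b z.2 z.1.1 z.1.2.1 = 0 ∧ dS b z.2 z.1.1 z.1.2.2 = 0}} := by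
    rintro ⟨⟨t, x, y⟩, ⟨_, hx, hy⟩, h1, h2, h3⟩
    rw [mem_sphere_zero_iff_norm] at hx hy
    exact (not_le_one_iff _).2 ⟨x, y, hx, hy, h1, h2, h3⟩ (hv₀ t)
  filter_upwards [hcl.isOpen_compl.mem_nhds hnot, Metric.closedBall_mem_nhds v₀ one_pos] with v hv hvb
  intro t
  by_contra hcon
  obtain ⟨x, y, hx, hy, hxy, hAx, hAy⟩ := (not_le_one_iff _).1 hcon
  apply hv
  refine ⟨(t, x, y), ⟨?_, ?_, ?_⟩, hxy, hAx, hAy⟩
  · rw [mem_Icc, ← abs_le]
    have h1 : fderiv ℝ b v x = -(t • x) := by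
      have : fderiv ℝ b v x + t • x = 0 := hAx
      exact eq_neg_of_add_eq_zero_left this
    have h2 : ‖fderiv ℝ b v x‖ ≤ R * 1 := by
      rw [← hx]
      exact (ContinuousLinearMap.le_opNorm _ _).trans
        (mul_le_mul_of_nonneg_right (hR v hvb) (norm_nonneg _))
    rw [h1, norm_neg, norm_smul, hx, mul_one, mul_one, Real.norm_eq_abs] at h2
    exact h2
  · rw [mem_sphere_zero_iff_norm]; exact hx
  · rw [mem_sphere_zero_iff_norm]; exact hy

/-- The main theorem on the perturbations. -/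
theorem generic (hd : 2 ≤ d) {b : Vec d → Vec d} (hb : ContDiff ℝ (d + 3 : ℕ) b) :
    ∀ᵐ p : Par d (d + 2), (∀ᵐ v : Vec d, v ∈ Reg (pert b p)) ∧
      (d = 2 → ∀ v, v ∈ Reg (pert b p)) ∧ ∀ v ∈ Reg (pert b p), Good (d + 2) (pert b p) v := by
  have hb2 : ContDiff ℝ 2 b := hb.of_le (by exact_mod_cast (show 2 ≤ d + 3 by omega))
  have h1 := kernel_ae (m := d + 2) hd (by omega) hb2 ⟨0, by omega⟩
  have h2 : ∀ᵐ p : Par d (d + 2), ¬ ∃ v t, dS (pert b p) v t = 0 := by
    rw [ae_iff]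
    simp only [not_not]
    exact zero_null hd (by omega) hb2
  have h3 : ∀ᵐ p : Par d (d + 2), ∀ k : Fin d,
      ¬ ∃ v t, ∃ c : Fin (d + 2) → Vec d, Normal k c ∧ Flat (pert b p) v t c := by
    rw [ae_all_iff]
    intro k
    rw [ae_iff]
    simp only [not_not]
    exact flat_null le_rfl hb k
  filter_upwards [h1, h2, h3] with p hp1 hp2 hp3
  refine ⟨?_, ?_, ?_⟩
  · filter_upwards [hp1] with v hv
    intro t
    by_contra hcon
    obtain ⟨x, hx, hx0, hx1⟩ := exists_kernel_coord _ ⟨0, by omega⟩ hcon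
    exact hv ⟨t, x, hx, hx0, hx1⟩
  · rintro rfl v t
    by_contra hcon
    exact hp2 ⟨v, t, eq_zero_of_two _ hcon⟩
  · intro v hv
    refine ⟨?_, hv, ?_⟩
    · have h4 : ContDiff ℝ (d + 2 : ℕ) (pert b p) :=
        pert_contDiff' (hb.of_le (by exact_mod_cast (show d + 2 ≤ d + 3 by omega))) p
      exact h4.contDiffAt
    · intro t k c hc hf
      exact hp3 k ⟨v, t, c, hc, hf⟩

end Pool.Agent.L0h24.GF
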