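import Mathlib

set_option autoImplicit false

/-! A function whose derivative of order `j` has no zeros has at most `j` zeros. -/

open Set Topology Asymptotics

namespace Pool.Agent.L0h24.GF

/-- Iterated Rolle theorem. -/
theorem rolle_card : ∀ (j : ℕ) (φ : ℝ → ℝ) (I : Set ℝ), IsOpen I → I.OrdConnected →
    ContDiffOn ℝ j φ I → (∀ z ∈ I, iteratedDeriv j φ z ≠ 0) →
    ∀ Z : Finset ℝ, (∀ z ∈ Z, z ∈ I ∧ φ z = 0) → Z.card ≤ j := by
  intro j
  induction j with
  | zero =>
    intro φ I _ _ _ hne Z hZ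
    rw [Nat.le_zero, Finset.card_eq_zero]
    apply Finset.eq_empty_of_forall_notMem
    intro z hz
    obtain ⟨h1, h2⟩ := hZ z hz
    have := hne z h1
    rw [iteratedDeriv_zero] at this
    exact this h2
  | succ j ih =>
    intro φ I hI hIc hφ hne Z hZ
    classical
    have hφ' : ContDiffOn ℝ j (deriv φ) I := by
      apply hφ.deriv_of_isOpen hI
      norm_cast
    have ih' := ih (deriv φ) I hI hIc hφ' (by
      intro z hz
      have := hne z hz
      rwa [iteratedDeriv_succ'] at this)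
    set T : Set ℝ := {z | z ∈ I ∧ deriv φ z = 0} with hT
    have hTf : T.Finite := by
      by_contra hcon
      obtain ⟨t, ht, htc⟩ := Set.Infinite.exists_subset_card_eq hcon (j + 1)
      have := ih' t (fun z hz => ht hz)
      omega
    have hcard : hTf.toFinset.card ≤ j := ih' _ (fun z hz => by
      have : z ∈ T := by simpa using hz
      exact this)
    refine (Finset.card_le_of_interleaved (t := hTf.toFinset) ?_).trans (by omega)
    intro x hx y hy hxy _
    obtain ⟨hxI, hx0⟩ := hZ x hx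
    obtain ⟨hyI, hy0⟩ := hZ y hy
    have hsub : Icc x y ⊆ I := hIc.out hxI hyI
    obtain ⟨z, hz, hz0⟩ := exists_deriv_eq_zero hxy (hφ.continuousOn.mono hsub) (hx0.trans hy0.symm)
    refine ⟨z, ?_, hz.1, hz.2⟩
    rw [Set.Finite.mem_toFinset]
    exact ⟨hsub (Ioo_subset_Icc_self hz), hz0⟩

/-- Taylor's theorem with little-o at a point. -/
theorem taylor_o {E : Type*} [NormedAddCommGroup E] [NormedSpace ℝ E] {f : ℝ → E} {n : ℕ}
    (hf : ContDiffAt ℝ n f 0) :
    (fun s => f s - ∑ i ∈ Finset.range (n + 1), ((i.factorial : ℝ)⁻¹ * s ^ i) • iteratedDeriv i f 0)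
      =o[𝓝 0] fun s => s ^ n := by
  obtain ⟨u, hu, hfu⟩ := hf.contDiffOn (m := n) le_rfl (by simp)
  obtain ⟨ε, hε, hball⟩ := Metric.mem_nhds_iff.1 hu
  rw [Real.ball_eq_Ioo, zero_sub, zero_add] at hball
  have hfI : ContDiffOn ℝ n f (Ioo (-ε) ε) := hfu.mono hball
  have h0 : (0 : ℝ) ∈ Ioo (-ε) ε := ⟨by linarith, hε⟩
  have h := taylor_isLittleO (convex_Ioo (-ε) ε) h0 hfI
  rw [isOpen_Ioo.nhdsWithin_eq h0] at h
  simp only [sub_zero] at h
  refine h.congr' (Filter.Eventually.of_forall fun s => ?_) Filter.EventuallyEq.rfl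
  simp only
  rw [taylor_within_apply]
  congr 1
  refine Finset.sum_congr rfl fun i hi => ?_
  rw [sub_zero, iteratedDerivWithin_of_isOpen isOpen_Ioo h0]

end Pool.Agent.L0h24.GF
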